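import Mathlib

set_option autoImplicit false

namespace Pool.Agent.Q268.BV

open Finset

variable {ι : Type*} [Fintype ι] [DecidableEq ι]

/-- the sign of a Boolean -/
def sg (b : Bool) : ℝ := if b then 1 else -1

lemma sg_sq (b : Bool) : sg b * sg b = 1 := by
  cases b <;> norm_num [sg]

lemma sg_not (b : Bool) : sg (!b) = - sg b := by
  cases b <;> norm_num [sg]

lemma sg_or (b : Bool) : sg b = 1 ∨ sg b = -1 := by
  cases b <;> simp [sg]

/-- flipping one coordinate -/
def flip (p : ι) (e : ι → Bool) : ι → Bool := Function.update e p (!(e p))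

lemma flip_flip (p : ι) (e : ι → Bool) : flip p (flip p e) = e := by
  funext i
  by_cases h : i = p
  · subst h; simp [flip]
  · simp [flip, h]

lemma sum_eq_zero_of_flip (p : ι) (F : (ι → Bool) → ℝ) (h : ∀ e, F (flip p e) = - F e) :
    ∑ e, F e = 0 := by
  have h1 : ∑ e, F e = ∑ e, F (flip p e) := by
    symm
    exact Fintype.sum_equiv (Function.Involutive.toPerm (flip p) (flip_flip p)) _ _
      (fun e => rfl)
  have h2 : ∑ e, F (flip p e) = - ∑ e, F e := by
    rw [← sum_neg_distrib]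
    exact sum_congr rfl (fun e _ => h e)
  linarith

lemma sg_flip_self (p : ι) (e : ι → Bool) : sg (flip p e p) = - sg (e p) := by
  simp [flip, sg_not]

lemma sg_flip_ne (p i : ι) (h : i ≠ p) (e : ι → Bool) : sg (flip p e i) = sg (e i) := by
  simp [flip, h]

lemma mom2 (i j : ι) : ∑ e : ι → Bool, sg (e i) * sg (e j) =
    if i = j then (Fintype.card (ι → Bool) : ℝ) else 0 := by
  split_ifs with h
  · subst h
    simp [sg_sq]
  · refine sum_eq_zero_of_flip i _ (fun e => ?_)
    rw [sg_flip_self, sg_flip_ne i j (Ne.symm h)]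
    ring

lemma mom4 (i j k l : ι) : ∑ e : ι → Bool, (sg (e i) * sg (e j)) * (sg (e k) * sg (e l)) =
    (Fintype.card (ι → Bool) : ℝ) * ((if i = j ∧ k = l then 1 else 0) +
      (if i = k ∧ j = l then 1 else 0) + (if i = l ∧ j = k then 1 else 0)
      - 2 * (if i = j ∧ j = k ∧ k = l then 1 else 0)) := by
  by_cases hij : i = j
  · subst hij
    have : ∀ e : ι → Bool, (sg (e i) * sg (e i)) * (sg (e k) * sg (e l)) = sg (e k) * sg (e l) := by
      intro e; rw [sg_sq, one_mul]
    simp_rw [this, mom2]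
    by_cases hkl : k = l
    · subst hkl
      by_cases hik : i = k <;> simp [hik] <;> ring
    · have h1 : ¬ (i = k ∧ i = l) := fun h => hkl (h.1.symm.trans h.2)
      have h2 : ¬ (i = l ∧ i = k) := fun h => hkl (h.2.symm.trans h.1)
      simp [hkl, h1, h2]
  · by_cases hki : k = i
    · subst hki
      have : ∀ e : ι → Bool, (sg (e k) * sg (e j)) * (sg (e k) * sg (e l)) = sg (e j) * sg (e l) := by
        intro e
        calc (sg (e k) * sg (e j)) * (sg (e k) * sg (e l))
            = (sg (e k) * sg (e k)) * (sg (e j) * sg (e l)) := by ring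
          _ = _ := by rw [sg_sq, one_mul]
      simp_rw [this, mom2]
      by_cases hjl : j = l
      · subst hjl; simp [hij, Ne.symm hij]
      · have h2 : ¬ (j = k) := fun h => hij h.symm
        simp [hij, hjl, h2]
    · by_cases hli : l = i
      · subst hli
        have : ∀ e : ι → Bool, (sg (e l) * sg (e j)) * (sg (e k) * sg (e l)) = sg (e j) * sg (e k) := by
          intro e
          calc (sg (e l) * sg (e j)) * (sg (e k) * sg (e l))
              = (sg (e l) * sg (e l)) * (sg (e j) * sg (e k)) := by ring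
            _ = _ := by rw [sg_sq, one_mul]
        simp_rw [this, mom2]
        by_cases hjk : j = k
        · subst hjk; simp [hij, Ne.symm hij]
        · simp [hij, hjk, Ne.symm hki]
      · have h0 : ∑ e : ι → Bool, (sg (e i) * sg (e j)) * (sg (e k) * sg (e l)) = 0 := by
          refine sum_eq_zero_of_flip i _ (fun e => ?_)
          rw [sg_flip_self, sg_flip_ne i j (Ne.symm hij), sg_flip_ne i k hki, sg_flip_ne i l hli]
          ring
        rw [h0]
        simp [hij, Ne.symm hki, Ne.symm hli]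

variable {E : Type*} [NormedAddCommGroup E] [InnerProductSpace ℝ E]

open scoped InnerProductSpace

lemma normsq_expand (v : ι → E) (a : ι → ℝ) :
    ‖∑ i, a i • v i‖ ^ 2 = ∑ i, ∑ j, ⟪v i, v j⟫_ℝ * (a i * a j) := by
  rw [← real_inner_self_eq_norm_sq, sum_inner]
  refine sum_congr rfl (fun i _ => ?_)
  rw [inner_sum]
  refine sum_congr rfl (fun j _ => ?_)
  rw [real_inner_smul_left, real_inner_smul_right]
  ring

/-- average of the squared norm -/
lemma avg1 (v : ι → E) (hv : ∀ i, ‖v i‖ = 1) :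
    ∑ e : ι → Bool, ‖∑ i, sg (e i) • v i‖ ^ 2 =
      (Fintype.card (ι → Bool) : ℝ) * (Fintype.card ι : ℝ) := by
  simp_rw [normsq_expand]
  rw [sum_comm]
  have : ∀ i : ι, ∑ e : ι → Bool, ∑ j, ⟪v i, v j⟫_ℝ * (sg (e i) * sg (e j)) =
      (Fintype.card (ι → Bool) : ℝ) := by
    intro i
    rw [sum_comm]
    simp_rw [← mul_sum, mom2]
    simp [real_inner_self_eq_norm_sq, hv]
  simp_rw [this]
  simp [mul_comm]

/-- there is a signing of squared norm at most the number of vectors -/
lemma exists_le_card (v : ι → E) (hv : ∀ i, ‖v i‖ = 1) :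
    ∃ e : ι → Bool, ‖∑ i, sg (e i) • v i‖ ^ 2 ≤ (Fintype.card ι : ℝ) := by
  by_contra hcon
  push_neg at hcon
  have h := avg1 v hv
  have h2 : ∑ e : ι → Bool, (Fintype.card ι : ℝ) < ∑ e : ι → Bool, ‖∑ i, sg (e i) • v i‖ ^ 2 :=
    sum_lt_sum_of_nonempty ⟨fun _ => true, mem_univ _⟩ (fun e _ => hcon e)
  rw [h] at h2
  simp at h2

/-- the weight -/
lemma wsum (x : ι → ℝ) : ∑ e : ι → Bool, (∑ i, x i * sg (e i)) ^ 2 =
    (Fintype.card (ι → Bool) : ℝ) * ∑ i, x i ^ 2 := by
  have h1 : ∀ e : ι → Bool, (∑ i, x i * sg (e i)) ^ 2 =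
      ∑ i, ∑ j, (x i * x j) * (sg (e i) * sg (e j)) := by
    intro e
    rw [sq, sum_mul_sum]
    refine sum_congr rfl (fun i _ => sum_congr rfl (fun j _ => ?_))
    ring
  simp_rw [h1]
  rw [sum_comm]
  have : ∀ i : ι, ∑ e : ι → Bool, ∑ j, (x i * x j) * (sg (e i) * sg (e j)) =
      (Fintype.card (ι → Bool) : ℝ) * x i ^ 2 := by
    intro i
    rw [sum_comm]
    simp_rw [← mul_sum, mom2]
    simp
    ring
  simp_rw [this]
  rw [mul_sum]

lemma wnorm (v : ι → E) (hv : ∀ i, ‖v i‖ = 1) (x : ι → ℝ) (hx : ∑ i, x i • v i = 0) :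
    ∑ e : ι → Bool, ‖∑ i, sg (e i) • v i‖ ^ 2 * (∑ i, x i * sg (e i)) ^ 2 =
      (Fintype.card (ι → Bool) : ℝ) * (((Fintype.card ι : ℝ) - 2) * ∑ i, x i ^ 2) := by
  have h1 : ∀ e : ι → Bool, (∑ i, x i * sg (e i)) ^ 2 =
      ∑ k, ∑ l, (x k * x l) * (sg (e k) * sg (e l)) := by
    intro e
    rw [sq, sum_mul_sum]
    refine sum_congr rfl (fun i _ => sum_congr rfl (fun j _ => ?_))
    ring
  have h2 : ∀ e : ι → Bool, ‖∑ i, sg (e i) • v i‖ ^ 2 * (∑ i, x i * sg (e i)) ^ 2 =
      ∑ i, ∑ j, ∑ k, ∑ l, (⟪v i, v j⟫_ℝ * (x k * x l)) *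
        ((sg (e i) * sg (e j)) * (sg (e k) * sg (e l))) := by
    intro e
    rw [normsq_expand, h1, sum_mul]
    refine sum_congr rfl (fun i _ => ?_)
    rw [sum_mul]
    refine sum_congr rfl (fun j _ => ?_)
    rw [mul_sum]
    refine sum_congr rfl (fun k _ => ?_)
    rw [mul_sum]
    refine sum_congr rfl (fun l _ => ?_)
    ring
  simp_rw [h2]
  rw [sum_comm]
  have h3 : ∀ i : ι, ∑ e : ι → Bool, ∑ j, ∑ k, ∑ l, (⟪v i, v j⟫_ℝ * (x k * x l)) *
        ((sg (e i) * sg (e j)) * (sg (e k) * sg (e l))) =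
      ∑ j, ∑ k, ∑ l, (⟪v i, v j⟫_ℝ * (x k * x l)) *
        ((Fintype.card (ι → Bool) : ℝ) * ((if i = j ∧ k = l then 1 else 0) +
      (if i = k ∧ j = l then 1 else 0) + (if i = l ∧ j = k then 1 else 0)
      - 2 * (if i = j ∧ j = k ∧ k = l then 1 else 0))) := by
    intro i
    rw [sum_comm]
    refine sum_congr rfl (fun j _ => ?_)
    rw [sum_comm]
    refine sum_congr rfl (fun k _ => ?_)
    rw [sum_comm]
    refine sum_congr rfl (fun l _ => ?_)
    rw [← mul_sum, mom4]
  simp_rw [h3]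
  set N : ℝ := (Fintype.card (ι → Bool) : ℝ) with hN
  have h4 : ∀ i j k l : ι, (⟪v i, v j⟫_ℝ * (x k * x l)) *
        (N * ((if i = j ∧ k = l then 1 else 0) +
      (if i = k ∧ j = l then 1 else 0) + (if i = l ∧ j = k then 1 else 0)
      - 2 * (if i = j ∧ j = k ∧ k = l then 1 else 0))) =
      N * ((if i = j then (if k = l then ⟪v i, v j⟫_ℝ * (x k * x l) else 0) else 0)
        + (if i = k then (if j = l then ⟪v i, v j⟫_ℝ * (x k * x l) else 0) else 0)
        + (if i = l then (if j = k then ⟪v i, v j⟫_ℝ * (x k * x l) else 0) else 0)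
        - 2 * (if i = j then (if j = k then (if k = l then ⟪v i, v j⟫_ℝ * (x k * x l) else 0)
            else 0) else 0)) := by
    intro i j k l
    simp only [ite_and]
    generalize hP : ⟪v i, v j⟫_ℝ * (x k * x l) = P
    split_ifs <;> ring
  simp_rw [h4, ← mul_sum, sum_sub_distrib, sum_add_distrib, ← mul_sum]
  have e1 : ∑ i, ∑ j, ∑ k, ∑ l, (if i = j then (if k = l then ⟪v i, v j⟫_ℝ * (x k * x l) else 0)
      else 0) = (Fintype.card ι : ℝ) * ∑ i, x i ^ 2 := by
    have : ∀ i : ι, ∑ j, ∑ k, ∑ l, (if i = j then (if k = l then ⟪v i, v j⟫_ℝ * (x k * x l) else 0)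
      else 0) = ∑ k, x k ^ 2 := by
      intro i
      rw [Finset.sum_eq_single i]
      · refine sum_congr rfl (fun k _ => ?_)
        simp [real_inner_self_eq_norm_sq, hv]
        ring
      · intro j _ hj
        simp [Ne.symm hj]
      · intro h; exact absurd (mem_univ _) h
    simp_rw [this]
    simp
  have hA : ∑ i, ∑ j, ⟪v i, v j⟫_ℝ * (x i * x j) = 0 := by
    rw [← normsq_expand, hx]; simp
  have e2 : ∑ i, ∑ j, ∑ k, ∑ l, (if i = k then (if j = l then ⟪v i, v j⟫_ℝ * (x k * x l) else 0)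
      else 0) = 0 := by
    refine Eq.trans ?_ hA
    refine sum_congr rfl (fun i _ => sum_congr rfl (fun j _ => ?_))
    rw [Finset.sum_eq_single i]
    · rw [Finset.sum_eq_single j]
      · simp
      · intro l _ hl; simp [Ne.symm hl]
      · intro h; exact absurd (mem_univ _) h
    · intro k _ hk; simp [Ne.symm hk]
    · intro h; exact absurd (mem_univ _) h
  have e3 : ∑ i, ∑ j, ∑ k, ∑ l, (if i = l then (if j = k then ⟪v i, v j⟫_ℝ * (x k * x l) else 0)
      else 0) = 0 := by
    refine Eq.trans ?_ hA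
    refine sum_congr rfl (fun i _ => sum_congr rfl (fun j _ => ?_))
    rw [Finset.sum_eq_single j]
    · rw [Finset.sum_eq_single i]
      · rw [if_pos rfl, if_pos rfl]; ring
      · intro l _ hl; simp [Ne.symm hl]
      · intro h; exact absurd (mem_univ _) h
    · intro k _ hk
      refine sum_eq_zero (fun l _ => ?_)
      simp [Ne.symm hk]
    · intro h; exact absurd (mem_univ _) h
  have e4 : ∑ i, ∑ j, ∑ k, ∑ l, (if i = j then (if j = k then (if k = l then
      ⟪v i, v j⟫_ℝ * (x k * x l) else 0) else 0) else 0) = ∑ i, x i ^ 2 := by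
    refine sum_congr rfl (fun i _ => ?_)
    rw [Finset.sum_eq_single i]
    · rw [Finset.sum_eq_single i]
      · rw [Finset.sum_eq_single i]
        · simp [real_inner_self_eq_norm_sq, hv]; ring
        · intro l _ hl; simp [Ne.symm hl]
        · intro h; exact absurd (mem_univ _) h
      · intro k _ hk; simp [Ne.symm hk]
      · intro h; exact absurd (mem_univ _) h
    · intro j _ hj; simp [Ne.symm hj]
    · intro h; exact absurd (mem_univ _) h
  rw [e1, e2, e3, e4]
  ring

/-- linearly dependent unit vectors: a signing of squared norm at most `n - 2` -/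
lemma exists_le_card_sub_two (v : ι → E) (hv : ∀ i, ‖v i‖ = 1) (h : ¬ LinearIndependent ℝ v) :
    ∃ e : ι → Bool, ‖∑ i, sg (e i) • v i‖ ^ 2 ≤ (Fintype.card ι : ℝ) - 2 := by
  rw [Fintype.not_linearIndependent_iff] at h
  obtain ⟨x, hx, i0, hi0⟩ := h
  by_contra hcon
  push_neg at hcon
  have hpos : 0 < ∑ i, x i ^ 2 := by
    refine sum_pos' (fun i _ => sq_nonneg _) ⟨i0, mem_univ _, by positivity⟩
  have hcard : (0:ℝ) < (Fintype.card (ι → Bool) : ℝ) := by
    exact_mod_cast Fintype.card_pos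
  have h1 := wnorm v hv x hx
  have h2 := wsum x
  have hex : ∃ e : ι → Bool, 0 < (∑ i, x i * sg (e i)) ^ 2 := by
    by_contra hno
    push_neg at hno
    have : ∑ e : ι → Bool, (∑ i, x i * sg (e i)) ^ 2 ≤ 0 := sum_nonpos (fun e _ => hno e)
    rw [h2] at this
    have := mul_pos hcard hpos
    linarith
  obtain ⟨e0, he0⟩ := hex
  have h3 : ∑ e : ι → Bool, ((Fintype.card ι : ℝ) - 2) * (∑ i, x i * sg (e i)) ^ 2 <
      ∑ e : ι → Bool, ‖∑ i, sg (e i) • v i‖ ^ 2 * (∑ i, x i * sg (e i)) ^ 2 := by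
    refine sum_lt_sum (fun e _ => ?_) ⟨e0, mem_univ _, ?_⟩
    · exact mul_le_mul_of_nonneg_right (hcon e).le (sq_nonneg _)
    · exact mul_lt_mul_of_pos_right (hcon e0) he0
  rw [h1, ← mul_sum, h2] at h3
  have : ((Fintype.card ι : ℝ) - 2) * ((Fintype.card (ι → Bool) : ℝ) * ∑ i, x i ^ 2) =
    (Fintype.card (ι → Bool) : ℝ) * (((Fintype.card ι : ℝ) - 2) * ∑ i, x i ^ 2) := by ring
  linarith

end Pool.Agent.Q268.BV
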