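import Mathlib
import Pool.Agent.Q268.BV.Core

set_option autoImplicit false

namespace Pool.Agent.Q268.BV

open Finset
open scoped InnerProductSpace

variable {ι : Type*} [Fintype ι] [DecidableEq ι]

/-- Walsh character of the subset `S`, at the sign vector `e` -/
def ch (S e : ι → Bool) : ℝ := ∏ i, if S i then sg (e i) else 1

lemma ch_flip_left (p : ι) (S e : ι → Bool) : ch (flip p S) e = sg (e p) * ch S e := by
  unfold ch
  rw [← Finset.mul_prod_erase univ _ (mem_univ p), ← Finset.mul_prod_erase univ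
    (fun i => if S i then sg (e i) else 1) (mem_univ p), ← mul_assoc]
  congr 1
  · have h : flip p S p = !(S p) := by simp [flip]
    rw [h]
    cases S p
    · simp
    · simp [sg_sq]
  · refine prod_congr rfl (fun i hi => ?_)
    have h : flip p S i = S i := by simp [flip, ne_of_mem_erase hi]
    rw [h]

lemma ch_flip_right (p : ι) (S e : ι → Bool) :
    ch S (flip p e) = (if S p then -1 else 1) * ch S e := by
  unfold ch
  rw [← Finset.mul_prod_erase univ _ (mem_univ p), ← Finset.mul_prod_erase univ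
    (fun i => if S i then sg (e i) else 1) (mem_univ p), ← mul_assoc]
  congr 1
  · rw [sg_flip_self]
    cases S p <;> simp
  · refine prod_congr rfl (fun i hi => ?_)
    rw [sg_flip_ne p i (ne_of_mem_erase hi)]

lemma ch_sq (S e : ι → Bool) : ch S e * ch S e = 1 := by
  unfold ch
  rw [← prod_mul_distrib]
  refine prod_eq_one (fun i _ => ?_)
  cases S i <;> simp [sg_sq]

lemma orth (S S' : ι → Bool) : ∑ e : ι → Bool, ch S e * ch S' e =
    if S = S' then (Fintype.card (ι → Bool) : ℝ) else 0 := by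
  split_ifs with h
  · subst h
    simp [ch_sq]
  · obtain ⟨p, hp⟩ := Function.ne_iff.mp h
    refine sum_eq_zero_of_flip p _ (fun e => ?_)
    rw [ch_flip_right, ch_flip_right]
    cases h1 : S p <;> cases h2 : S' p <;> simp_all

variable {E : Type*} [NormedAddCommGroup E] [InnerProductSpace ℝ E]

/-- Parseval for vector valued functions on the cube -/
lemma parseval (F : (ι → Bool) → E) :
    ∑ e : ι → Bool, ‖∑ S : ι → Bool, ch S e • F S‖ ^ 2 =
      (Fintype.card (ι → Bool) : ℝ) * ∑ S : ι → Bool, ‖F S‖ ^ 2 := by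
  have h1 : ∀ e : ι → Bool, ‖∑ S : ι → Bool, ch S e • F S‖ ^ 2 =
      ∑ S : ι → Bool, ∑ S' : ι → Bool, ⟪F S, F S'⟫_ℝ * (ch S e * ch S' e) := by
    intro e
    exact normsq_expand F (fun S => ch S e)
  simp_rw [h1]
  rw [sum_comm]
  have h2 : ∀ S : ι → Bool, ∑ e : ι → Bool, ∑ S' : ι → Bool,
      ⟪F S, F S'⟫_ℝ * (ch S e * ch S' e) = (Fintype.card (ι → Bool) : ℝ) * ‖F S‖ ^ 2 := by
    intro S
    rw [sum_comm]
    simp_rw [← mul_sum, orth]
    simp only [mul_ite, mul_zero, sum_ite_eq, mem_univ, if_true]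
    rw [real_inner_self_eq_norm_sq]
    ring
  simp_rw [h2]
  rw [mul_sum]

lemma parseval_real (T : (ι → Bool) → ℝ) :
    ∑ e : ι → Bool, (∑ S : ι → Bool, T S * ch S e) ^ 2 =
      (Fintype.card (ι → Bool) : ℝ) * ∑ S : ι → Bool, T S ^ 2 := by
  have h := parseval (E := ℝ) T
  simp only [smul_eq_mul, Real.norm_eq_abs, sq_abs] at h
  rw [← h]
  refine sum_congr rfl (fun e _ => ?_)
  congr 1
  refine sum_congr rfl (fun S _ => ?_)
  ring

/-- the equivalence `flip` -/
def flipE (p : ι) : (ι → Bool) ≃ (ι → Bool) :=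
  Function.Involutive.toPerm (flip p) (flip_flip p)

lemma qV (v : ι → E) (T : (ι → Bool) → ℝ) (e : ι → Bool) :
    (∑ S : ι → Bool, T S * ch S e) • (∑ i, sg (e i) • v i) =
      ∑ U : ι → Bool, ch U e • (∑ i, T (flip i U) • v i) := by
  have h1 : ∀ i : ι, (∑ S : ι → Bool, T S * ch S e) • (sg (e i) • v i) =
      ∑ U : ι → Bool, ch U e • (T (flip i U) • v i) := by
    intro i
    rw [sum_smul]
    rw [← Equiv.sum_comp (flipE i) (fun U => ch U e • (T (flip i U) • v i))]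
    refine sum_congr rfl (fun S _ => ?_)
    have h2 : (flipE i) S = flip i S := rfl
    rw [h2, flip_flip, ch_flip_left, smul_smul, smul_smul]
    congr 1
    ring
  rw [smul_sum]
  simp_rw [h1]
  rw [sum_comm]
  refine sum_congr rfl (fun U _ => ?_)
  rw [smul_sum]

lemma flip_comm (p q : ι) (S : ι → Bool) : flip p (flip q S) = flip q (flip p S) := by
  funext i
  by_cases hp : i = p <;> by_cases hq : i = q
  · subst hp; subst hq; rfl
  · subst hp; simp [flip, hq]
  · subst hq; simp [flip, hp]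
  · simp [flip, hp, hq]

lemma flip_self' (p : ι) (S : ι → Bool) : flip p S p = !(S p) := by simp [flip]

lemma flip_ne' (p i : ι) (h : i ≠ p) (S : ι → Bool) : flip p S i = S i := by simp [flip, h]

/-- raising and lowering parts -/
def Pp (T : (ι → Bool) → ℝ) (i : ι) (U : ι → Bool) : ℝ := if U i then T (flip i U) else 0
def Nn (T : (ι → Bool) → ℝ) (i : ι) (U : ι → Bool) : ℝ := if U i then 0 else T (flip i U)

lemma PN (T : (ι → Bool) → ℝ) (i : ι) (U : ι → Bool) : T (flip i U) = Pp T i U + Nn T i U := by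
  unfold Pp Nn; split_ifs <;> simp

lemma PPNN (T : (ι → Bool) → ℝ) (i j : ι) (h : i ≠ j) :
    ∑ U : ι → Bool, Pp T i U * Pp T j U = ∑ U : ι → Bool, Nn T i U * Nn T j U := by
  rw [← Equiv.sum_comp ((flipE j).trans (flipE i)) (fun U => Nn T i U * Nn T j U)]
  refine sum_congr rfl (fun U _ => ?_)
  have h2 : ((flipE j).trans (flipE i)) U = flip i (flip j U) := rfl
  rw [h2]
  unfold Pp Nn
  rw [flip_flip, flip_self', flip_ne' j i h, flip_ne' i j (Ne.symm h), flip_self']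
  rw [flip_comm i j U, flip_flip]
  cases U i <;> cases U j <;> simp [mul_comm]

/-- the number of elements -/
def wt (S : ι → Bool) : ℕ := (univ.filter (fun i => S i = true)).card

lemma PPdiag (T : (ι → Bool) → ℝ) (i : ι) :
    ∑ U : ι → Bool, Pp T i U ^ 2 = ∑ S : ι → Bool, (if S i then 0 else T S ^ 2) := by
  rw [← Equiv.sum_comp (flipE i) (fun U => Pp T i U ^ 2)]
  refine sum_congr rfl (fun U _ => ?_)
  have h2 : (flipE i) U = flip i U := rfl
  rw [h2]
  unfold Pp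
  rw [flip_flip, flip_self']
  cases U i <;> simp

lemma NNdiag (T : (ι → Bool) → ℝ) (i : ι) :
    ∑ U : ι → Bool, Nn T i U ^ 2 = ∑ S : ι → Bool, (if S i then T S ^ 2 else 0) := by
  rw [← Equiv.sum_comp (flipE i) (fun U => Nn T i U ^ 2)]
  refine sum_congr rfl (fun U _ => ?_)
  have h2 : (flipE i) U = flip i U := rfl
  rw [h2]
  unfold Nn
  rw [flip_flip, flip_self']
  cases U i <;> simp

lemma sum_normsq (v : ι → E) (hv : ∀ i, ‖v i‖ = 1) (T : (ι → Bool) → ℝ) (k : ℕ)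
    (hT : ∀ S, wt S ≠ k → T S = 0)
    (hker : ∀ U : ι → Bool, ∑ i, Nn T i U • v i = 0) :
    ∑ U : ι → Bool, ‖∑ i, T (flip i U) • v i‖ ^ 2 =
      ((Fintype.card ι : ℝ) - 2 * k) * ∑ S : ι → Bool, T S ^ 2 := by
  have h1 : ∀ U : ι → Bool, ∑ i, T (flip i U) • v i = ∑ i, Pp T i U • v i := by
    intro U
    have : ∑ i, T (flip i U) • v i = ∑ i, Pp T i U • v i + ∑ i, Nn T i U • v i := by
      rw [← sum_add_distrib]
      refine sum_congr rfl (fun i _ => ?_)
      rw [← add_smul, ← PN]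
    rw [this, hker, add_zero]
  simp_rw [h1]
  have h0 : ∑ U : ι → Bool, ‖∑ i, Nn T i U • v i‖ ^ 2 = 0 := by
    simp [hker]
  have h2 : ∑ U : ι → Bool, ‖∑ i, Pp T i U • v i‖ ^ 2 =
      ∑ U : ι → Bool, ‖∑ i, Pp T i U • v i‖ ^ 2 - ∑ U : ι → Bool, ‖∑ i, Nn T i U • v i‖ ^ 2 := by
    rw [h0, sub_zero]
  rw [h2]
  simp_rw [normsq_expand]
  have h3 : ∀ X : ι → (ι → Bool) → ℝ, ∑ U : ι → Bool, ∑ i, ∑ j, ⟪v i, v j⟫_ℝ * (X i U * X j U) =
      ∑ i, ∑ j, ⟪v i, v j⟫_ℝ * ∑ U : ι → Bool, X i U * X j U := by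
    intro X
    rw [sum_comm]
    refine sum_congr rfl (fun i _ => ?_)
    rw [sum_comm]
    refine sum_congr rfl (fun j _ => ?_)
    rw [mul_sum]
  rw [h3 (Pp T), h3 (Nn T), ← sum_sub_distrib]
  have h4 : ∀ i : ι, (∑ j, ⟪v i, v j⟫_ℝ * ∑ U : ι → Bool, Pp T i U * Pp T j U) -
      (∑ j, ⟪v i, v j⟫_ℝ * ∑ U : ι → Bool, Nn T i U * Nn T j U) =
      ∑ S : ι → Bool, (1 - 2 * (if S i then (1:ℝ) else 0)) * T S ^ 2 := by
    intro i
    rw [← sum_sub_distrib, Finset.sum_eq_single i]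
    · have e1 : ∑ U : ι → Bool, Pp T i U * Pp T i U = ∑ U : ι → Bool, Pp T i U ^ 2 :=
        sum_congr rfl (fun U _ => by ring)
      have e2 : ∑ U : ι → Bool, Nn T i U * Nn T i U = ∑ U : ι → Bool, Nn T i U ^ 2 :=
        sum_congr rfl (fun U _ => by ring)
      rw [e1, e2, PPdiag, NNdiag, real_inner_self_eq_norm_sq, hv i, ← mul_sub, ← sum_sub_distrib,
        one_pow, one_mul]
      refine sum_congr rfl (fun S _ => ?_)
      cases S i <;> simp
      ring
    · intro j _ hj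
      rw [PPNN T i j (Ne.symm hj), sub_self]
    · intro h; exact absurd (mem_univ _) h
  rw [sum_congr rfl (fun i _ => h4 i), sum_comm, mul_sum]
  refine sum_congr rfl (fun S _ => ?_)
  rw [← sum_mul]
  by_cases hk : wt S = k
  · congr 1
    rw [sum_sub_distrib, ← mul_sum]
    have : ∑ i : ι, (if S i then (1:ℝ) else 0) = k := by
      rw [← hk, wt, ← sum_filter]
      simp
    rw [this]
    simp
  · rw [hT S hk]; simp

/-- The kernel criterion. -/
theorem kernel_criterion (v : ι → E) (hv : ∀ i, ‖v i‖ = 1) (T : (ι → Bool) → ℝ) (k : ℕ)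
    (hT : ∀ S, wt S ≠ k → T S = 0) (hne : ∃ S, T S ≠ 0)
    (hker : ∀ U : ι → Bool, ∑ i, Nn T i U • v i = 0) :
    ∃ e : ι → Bool, ‖∑ i, sg (e i) • v i‖ ^ 2 ≤ (Fintype.card ι : ℝ) - 2 * k := by
  by_contra hcon
  push_neg at hcon
  have hpos : 0 < ∑ S : ι → Bool, T S ^ 2 := by
    obtain ⟨S, hS⟩ := hne
    refine sum_pos' (fun i _ => sq_nonneg _) ⟨S, mem_univ _, by positivity⟩
  have hcard : (0:ℝ) < (Fintype.card (ι → Bool) : ℝ) := by
    exact_mod_cast Fintype.card_pos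
  have h1 := parseval_real T
  have h2 : ∑ e : ι → Bool, (∑ S : ι → Bool, T S * ch S e) ^ 2 * ‖∑ i, sg (e i) • v i‖ ^ 2 =
      (Fintype.card (ι → Bool) : ℝ) * (((Fintype.card ι : ℝ) - 2 * k) * ∑ S : ι → Bool, T S ^ 2) := by
    rw [← sum_normsq v hv T k hT hker, ← parseval]
    refine sum_congr rfl (fun e _ => ?_)
    rw [← qV, norm_smul, mul_pow, Real.norm_eq_abs, sq_abs]
  have hex : ∃ e : ι → Bool, 0 < (∑ S : ι → Bool, T S * ch S e) ^ 2 := by
    by_contra hno
    push_neg at hno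
    have : ∑ e : ι → Bool, (∑ S : ι → Bool, T S * ch S e) ^ 2 ≤ 0 := sum_nonpos (fun e _ => hno e)
    rw [h1] at this
    have := mul_pos hcard hpos
    linarith
  obtain ⟨e0, he0⟩ := hex
  have h3 : ∑ e : ι → Bool, (∑ S : ι → Bool, T S * ch S e) ^ 2 * ((Fintype.card ι : ℝ) - 2 * k) <
      ∑ e : ι → Bool, (∑ S : ι → Bool, T S * ch S e) ^ 2 * ‖∑ i, sg (e i) • v i‖ ^ 2 := by
    refine sum_lt_sum (fun e _ => ?_) ⟨e0, mem_univ _, ?_⟩
    · exact mul_le_mul_of_nonneg_left (hcon e).le (sq_nonneg _)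
    · exact mul_lt_mul_of_pos_left (hcon e0) he0
  rw [h2, ← sum_mul, h1] at h3
  have : (Fintype.card (ι → Bool) : ℝ) * (∑ S : ι → Bool, T S ^ 2) * ((Fintype.card ι : ℝ) - 2 * k) =
    (Fintype.card (ι → Bool) : ℝ) * (((Fintype.card ι : ℝ) - 2 * k) * ∑ S : ι → Bool, T S ^ 2) := by
    ring
  linarith

end Pool.Agent.Q268.BV
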