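import Mathlib
import Pool.Agent.Q268.BV.Kernel

set_option autoImplicit false

namespace Pool.Agent.Q268.BV

open Finset
open scoped InnerProductSpace

variable {ι : Type*} [Fintype ι] [DecidableEq ι]
variable {E : Type*} [NormedAddCommGroup E] [InnerProductSpace ℝ E]

lemma wnorm_gen (v : ι → E) (x : ι → ℝ) (hx : ∑ i, x i • v i = 0) :
    ∑ e : ι → Bool, ‖∑ i, sg (e i) • v i‖ ^ 2 * (∑ i, x i * sg (e i)) ^ 2 =
      (Fintype.card (ι → Bool) : ℝ) * ((∑ i, ‖v i‖ ^ 2) * (∑ i, x i ^ 2) -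
        2 * ∑ i, x i ^ 2 * ‖v i‖ ^ 2) := by
  have h1 : ∀ e : ι → Bool, (∑ i, x i * sg (e i)) ^ 2 =
      ∑ k, ∑ l, (x k * x l) * (sg (e k) * sg (e l)) := by
    intro e
    rw [sq, sum_mul_sum]
    refine sum_congr rfl (fun i _ => sum_congr rfl (fun j _ => ?_))
    ring
  have h2 : ∀ e : ι → Bool, ‖∑ i, sg (e i) • v i‖ ^ 2 * (∑ i, x i * sg (e i)) ^ 2 =
      ∑ i, ∑ j, ∑ k, ∑ l, (⟪v i, v j⟫_ℝ * (x k * x l)) *
        ((sg (e i) * sg (e j)) * (sg (e k) * sg (e l))) := by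
    intro e
    rw [normsq_expand, h1, sum_mul]
    refine sum_congr rfl (fun i _ => ?_)
    rw [sum_mul]
    refine sum_congr rfl (fun j _ => ?_)
    rw [mul_sum]
    refine sum_congr rfl (fun k _ => ?_)
    rw [mul_sum]
    refine sum_congr rfl (fun l _ => ?_)
    ring
  simp_rw [h2]
  rw [sum_comm]
  have h3 : ∀ i : ι, ∑ e : ι → Bool, ∑ j, ∑ k, ∑ l, (⟪v i, v j⟫_ℝ * (x k * x l)) *
        ((sg (e i) * sg (e j)) * (sg (e k) * sg (e l))) =
      ∑ j, ∑ k, ∑ l, (⟪v i, v j⟫_ℝ * (x k * x l)) *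
        ((Fintype.card (ι → Bool) : ℝ) * ((if i = j ∧ k = l then 1 else 0) +
      (if i = k ∧ j = l then 1 else 0) + (if i = l ∧ j = k then 1 else 0)
      - 2 * (if i = j ∧ j = k ∧ k = l then 1 else 0))) := by
    intro i
    rw [sum_comm]
    refine sum_congr rfl (fun j _ => ?_)
    rw [sum_comm]
    refine sum_congr rfl (fun k _ => ?_)
    rw [sum_comm]
    refine sum_congr rfl (fun l _ => ?_)
    rw [← mul_sum, mom4]
  simp_rw [h3]
  set N : ℝ := (Fintype.card (ι → Bool) : ℝ) with hN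
  have h4 : ∀ i j k l : ι, (⟪v i, v j⟫_ℝ * (x k * x l)) *
        (N * ((if i = j ∧ k = l then 1 else 0) +
      (if i = k ∧ j = l then 1 else 0) + (if i = l ∧ j = k then 1 else 0)
      - 2 * (if i = j ∧ j = k ∧ k = l then 1 else 0))) =
      N * ((if i = j then (if k = l then ⟪v i, v j⟫_ℝ * (x k * x l) else 0) else 0)
        + (if i = k then (if j = l then ⟪v i, v j⟫_ℝ * (x k * x l) else 0) else 0)
        + (if i = l then (if j = k then ⟪v i, v j⟫_ℝ * (x k * x l) else 0) else 0)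
        - 2 * (if i = j then (if j = k then (if k = l then ⟪v i, v j⟫_ℝ * (x k * x l) else 0)
            else 0) else 0)) := by
    intro i j k l
    simp only [ite_and]
    generalize hP : ⟪v i, v j⟫_ℝ * (x k * x l) = P
    split_ifs <;> ring
  simp_rw [h4, ← mul_sum, sum_sub_distrib, sum_add_distrib, ← mul_sum]
  have e1 : ∑ i, ∑ j, ∑ k, ∑ l, (if i = j then (if k = l then ⟪v i, v j⟫_ℝ * (x k * x l) else 0)
      else 0) = (∑ i, ‖v i‖ ^ 2) * ∑ i, x i ^ 2 := by
    have : ∀ i : ι, ∑ j, ∑ k, ∑ l, (if i = j then (if k = l then ⟪v i, v j⟫_ℝ * (x k * x l) else 0)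
      else 0) = ‖v i‖ ^ 2 * ∑ k, x k ^ 2 := by
      intro i
      rw [Finset.sum_eq_single i]
      · rw [mul_sum]
        refine sum_congr rfl (fun k _ => ?_)
        simp only [if_true, sum_ite_eq, mem_univ, real_inner_self_eq_norm_sq]
        ring
      · intro j _ hj
        simp [Ne.symm hj]
      · intro h; exact absurd (mem_univ _) h
    simp_rw [this]
    rw [sum_mul]
  have hA : ∑ i, ∑ j, ⟪v i, v j⟫_ℝ * (x i * x j) = 0 := by
    rw [← normsq_expand, hx]; simp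
  have e2 : ∑ i, ∑ j, ∑ k, ∑ l, (if i = k then (if j = l then ⟪v i, v j⟫_ℝ * (x k * x l) else 0)
      else 0) = 0 := by
    refine Eq.trans ?_ hA
    refine sum_congr rfl (fun i _ => sum_congr rfl (fun j _ => ?_))
    rw [Finset.sum_eq_single i]
    · rw [Finset.sum_eq_single j]
      · simp
      · intro l _ hl; simp [Ne.symm hl]
      · intro h; exact absurd (mem_univ _) h
    · intro k _ hk; simp [Ne.symm hk]
    · intro h; exact absurd (mem_univ _) h
  have e3 : ∑ i, ∑ j, ∑ k, ∑ l, (if i = l then (if j = k then ⟪v i, v j⟫_ℝ * (x k * x l) else 0)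
      else 0) = 0 := by
    refine Eq.trans ?_ hA
    refine sum_congr rfl (fun i _ => sum_congr rfl (fun j _ => ?_))
    rw [Finset.sum_eq_single j]
    · rw [Finset.sum_eq_single i]
      · rw [if_pos rfl, if_pos rfl]; ring
      · intro l _ hl; simp [Ne.symm hl]
      · intro h; exact absurd (mem_univ _) h
    · intro k _ hk
      refine sum_eq_zero (fun l _ => ?_)
      simp [Ne.symm hk]
    · intro h; exact absurd (mem_univ _) h
  have e4 : ∑ i, ∑ j, ∑ k, ∑ l, (if i = j then (if j = k then (if k = l then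
      ⟪v i, v j⟫_ℝ * (x k * x l) else 0) else 0) else 0) = ∑ i, x i ^ 2 * ‖v i‖ ^ 2 := by
    refine sum_congr rfl (fun i _ => ?_)
    rw [Finset.sum_eq_single i]
    · rw [Finset.sum_eq_single i]
      · rw [Finset.sum_eq_single i]
        · simp only [if_true, real_inner_self_eq_norm_sq]; ring
        · intro l _ hl; simp [Ne.symm hl]
        · intro h; exact absurd (mem_univ _) h
      · intro k _ hk; simp [Ne.symm hk]
      · intro h; exact absurd (mem_univ _) h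
    · intro j _ hj; simp [Ne.symm hj]
    · intro h; exact absurd (mem_univ _) h
  rw [e1, e2, e3, e4]
  ring

/-- Weighted averaging: if all signings have squared norm more than `b` and `x` is a nonzero linear
dependency, then `b (∑ x²) < (∑ ‖v‖²) (∑ x²) - 2 ∑ x² ‖v‖²`. -/
lemma weighted (v : ι → E) (x : ι → ℝ) (hx : ∑ i, x i • v i = 0) (hne : ∃ i, x i ≠ 0) (b : ℝ)
    (hb : ∀ e : ι → Bool, b < ‖∑ i, sg (e i) • v i‖ ^ 2) :
    b * ∑ i, x i ^ 2 < (∑ i, ‖v i‖ ^ 2) * (∑ i, x i ^ 2) - 2 * ∑ i, x i ^ 2 * ‖v i‖ ^ 2 := by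
  have hpos : 0 < ∑ i, x i ^ 2 := by
    obtain ⟨S, hS⟩ := hne
    refine sum_pos' (fun i _ => sq_nonneg _) ⟨S, mem_univ _, by positivity⟩
  have hcard : (0:ℝ) < (Fintype.card (ι → Bool) : ℝ) := by
    exact_mod_cast Fintype.card_pos
  have h1 := wnorm_gen v x hx
  have h2 := wsum x
  have hex : ∃ e : ι → Bool, 0 < (∑ i, x i * sg (e i)) ^ 2 := by
    by_contra hno
    push_neg at hno
    have : ∑ e : ι → Bool, (∑ i, x i * sg (e i)) ^ 2 ≤ 0 := sum_nonpos (fun e _ => hno e)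
    rw [h2] at this
    have := mul_pos hcard hpos
    linarith
  obtain ⟨e0, he0⟩ := hex
  have h3 : ∑ e : ι → Bool, b * (∑ i, x i * sg (e i)) ^ 2 <
      ∑ e : ι → Bool, ‖∑ i, sg (e i) • v i‖ ^ 2 * (∑ i, x i * sg (e i)) ^ 2 := by
    refine sum_lt_sum (fun e _ => ?_) ⟨e0, mem_univ _, ?_⟩
    · exact mul_le_mul_of_nonneg_right (hb e).le (sq_nonneg _)
    · exact mul_lt_mul_of_pos_right (hb e0) he0
  rw [h1, ← mul_sum, h2] at h3
  have h4 : b * ((Fintype.card (ι → Bool) : ℝ) * ∑ i, x i ^ 2) =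
    (Fintype.card (ι → Bool) : ℝ) * (b * ∑ i, x i ^ 2) := by ring
  rw [h4] at h3
  exact lt_of_mul_lt_mul_left h3 hcard.le

/-- Rounding one coordinate. -/
lemma round_one (b c : E) (x : ℝ) (hx : |x| ≤ 1) :
    ∃ s : ℝ, (s = 1 ∨ s = -1) ∧ ‖b + s • c‖ ^ 2 ≤ ‖b + x • c‖ ^ 2 + (1 - x ^ 2) * ‖c‖ ^ 2 := by
  have key : ∀ s : ℝ, ‖b + s • c‖ ^ 2 = ‖b‖ ^ 2 + 2 * s * ⟪b, c⟫_ℝ + s ^ 2 * ‖c‖ ^ 2 := by
    intro s
    rw [norm_add_sq_real, real_inner_smul_right, norm_smul, mul_pow, Real.norm_eq_abs, sq_abs]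
    ring
  have hx1 := (abs_le.mp hx).1
  have hx2 := (abs_le.mp hx).2
  by_cases h : 0 ≤ ⟪b, c⟫_ℝ
  · refine ⟨-1, Or.inr rfl, ?_⟩
    rw [key, key]
    nlinarith
  · refine ⟨1, Or.inl rfl, ?_⟩
    rw [key, key]
    push_neg at h
    nlinarith

/-- Product rounding (derandomised). -/
lemma round_all (b : E) (c : ι → E) (x : ι → ℝ) (hx : ∀ i, |x i| ≤ 1) (S : Finset ι) :
    ∃ s : ι → ℝ, (∀ i, s i = 1 ∨ s i = -1) ∧
      ‖b + ∑ i ∈ S, s i • c i‖ ^ 2 ≤ ‖b + ∑ i ∈ S, x i • c i‖ ^ 2 +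
        ∑ i ∈ S, (1 - x i ^ 2) * ‖c i‖ ^ 2 := by
  induction S using Finset.induction_on generalizing b with
  | empty => exact ⟨fun _ => 1, fun _ => Or.inl rfl, by simp⟩
  | insert a S ha ih =>
    obtain ⟨s, hs, hb⟩ := ih (b + x a • c a)
    obtain ⟨t, ht, hb2⟩ := round_one (b + ∑ i ∈ S, s i • c i) (c a) (x a) (hx a)
    refine ⟨Function.update s a t, fun i => ?_, ?_⟩
    · by_cases h : i = a
      · subst h; rw [Function.update_self]; exact ht
      · rw [Function.update_of_ne h]; exact hs i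
    · rw [sum_insert ha, sum_insert ha, sum_insert ha, Function.update_self]
      have h1 : ∑ i ∈ S, Function.update s a t i • c i = ∑ i ∈ S, s i • c i := by
        refine sum_congr rfl (fun i hi => ?_)
        rw [Function.update_of_ne (by rintro rfl; exact ha hi)]
      rw [h1]
      have e1 : b + (t • c a + ∑ i ∈ S, s i • c i) = b + ∑ i ∈ S, s i • c i + t • c a := by abel
      have e2 : b + (x a • c a + ∑ i ∈ S, x i • c i) = b + x a • c a + ∑ i ∈ S, x i • c i := by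
        abel
      have e3 : b + ∑ i ∈ S, s i • c i + x a • c a = b + x a • c a + ∑ i ∈ S, s i • c i := by abel
      rw [e1, e2]
      rw [e3] at hb2
      linarith

end Pool.Agent.Q268.BV
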