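import Mathlib
import Pool.Agent.Q268.BV.Weighted

set_option autoImplicit false

namespace Pool.Agent.Q268.BV

open Finset
open scoped InnerProductSpace

variable {ι : Type*} [Fintype ι] [DecidableEq ι]

/-- complement of a Boolean vector -/
def neg (e : ι → Bool) : ι → Bool := fun i => !(e i)

omit [Fintype ι] [DecidableEq ι] in
lemma neg_neg' (e : ι → Bool) : neg (neg e) = e := by
  funext i; simp [neg]

lemma sum_neg' (F : (ι → Bool) → ℝ) : ∑ e, F (neg e) = ∑ e, F e :=
  Fintype.sum_equiv (Function.Involutive.toPerm neg neg_neg') _ _ (fun _ => rfl)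

lemma ch_symm (S e : ι → Bool) : ch S e = ch (neg e) (neg S) := by
  unfold ch neg
  refine prod_congr rfl (fun i _ => ?_)
  cases S i <;> cases e i <;> simp [sg]

/-- the number of `true` entries -/
def tc (S : ι → Bool) : ℕ := (univ.filter (fun i => S i = true)).card

lemma ch_neg (S e : ι → Bool) : ch S (neg e) = (-1) ^ tc S * ch S e := by
  have h1 : ((-1 : ℝ)) ^ tc S = ∏ i, if S i = true then (-1 : ℝ) else 1 := by
    rw [prod_ite]
    simp [tc]
  rw [h1]
  unfold ch neg
  rw [← prod_mul_distrib]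
  refine prod_congr rfl (fun i _ => ?_)
  cases S i <;> simp [sg_not]

/-- the transform -/
def tr (f : (ι → Bool) → ℝ) (S : ι → Bool) : ℝ := ∑ e : ι → Bool, ch S e * f e

/-- Parseval, for the transform of a function -/
lemma parseval' (f : (ι → Bool) → ℝ) :
    ∑ S : ι → Bool, (tr f S) ^ 2 =
      (Fintype.card (ι → Bool) : ℝ) * ∑ e : ι → Bool, f e ^ 2 := by
  have h1 : ∀ S : ι → Bool, tr f S =
      ∑ e : ι → Bool, f (neg e) * ch e (neg S) := by
    intro S
    unfold tr
    rw [← sum_neg' (fun e => f (neg e) * ch e (neg S))]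
    refine sum_congr rfl (fun e _ => ?_)
    rw [ch_symm S e, neg_neg', mul_comm]
  simp_rw [h1]
  rw [sum_neg' (fun S => (∑ e : ι → Bool, f (neg e) * ch e S) ^ 2)]
  rw [← sum_neg' (fun e => f e ^ 2)]
  exact parseval_real (fun e => f (neg e))

/-- the transform of a difference -/
lemma tr_diff (f : (ι → Bool) → ℝ) (i : ι) (S : ι → Bool) :
    tr (fun e => f e - f (flip i e)) S = (if S i = true then 2 else 0) * tr f S := by
  have h1 : ∑ e : ι → Bool, ch S e * f (flip i e) = (if S i then -1 else 1) * tr f S := by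
    have h2 : ∑ e : ι → Bool, ch S e * f (flip i e) =
        ∑ e : ι → Bool, ch S (flip i e) * f e := by
      refine Fintype.sum_equiv (flipE i) _ _ (fun e => ?_)
      have h3 : (flipE i) e = flip i e := rfl
      rw [h3, flip_flip]
    rw [h2]
    unfold tr
    rw [mul_sum]
    refine sum_congr rfl (fun e _ => ?_)
    rw [ch_flip_right]
    ring
  have h4 : tr (fun e => f e - f (flip i e)) S = tr f S - ∑ e : ι → Bool, ch S e * f (flip i e) := by
    unfold tr
    rw [← sum_sub_distrib]
    refine sum_congr rfl (fun e _ => ?_)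
    ring
  rw [h4, h1]
  cases S i <;> simp <;> ring

lemma flip_sum_sq (f : (ι → Bool) → ℝ) (i : ι) :
    ∑ e : ι → Bool, (f e - f (flip i e)) ^ 2 = 2 * ∑ e : ι → Bool, f e * (f e - f (flip i e)) := by
  have h1 : ∑ e : ι → Bool, f (flip i e) ^ 2 = ∑ e : ι → Bool, f e ^ 2 :=
    Fintype.sum_equiv (flipE i) _ _ (fun _ => rfl)
  have h2 : ∀ e, (f e - f (flip i e)) ^ 2 = f e ^ 2 + f (flip i e) ^ 2 - 2 * (f e * f (flip i e)) := by
    intro e; ring
  have h3 : ∀ e, f e * (f e - f (flip i e)) = f e ^ 2 - f e * f (flip i e) := by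
    intro e; ring
  simp_rw [h2, h3, sum_sub_distrib, sum_add_distrib, h1, ← mul_sum]
  ring

/-- For an even function `f ≥ 0` on the cube with `L f ≤ f`: the `L²` norm is at most `√2` times the
`L¹` norm. -/
lemma even_poincare (f : (ι → Bool) → ℝ) (heven : ∀ e, f (neg e) = f e) (h0 : ∀ e, 0 ≤ f e)
    (hL : ∀ e, ∑ i, (f e - f (flip i e)) ≤ 2 * f e) :
    (Fintype.card (ι → Bool) : ℝ) * ∑ e : ι → Bool, f e ^ 2 ≤ 2 * (∑ e : ι → Bool, f e) ^ 2 := by
  have hN : (0:ℝ) ≤ (Fintype.card (ι → Bool) : ℝ) := Nat.cast_nonneg _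
  -- the energy
  have h1 : ∑ S : ι → Bool, (tc S : ℝ) * tr f S ^ 2 ≤
      (Fintype.card (ι → Bool) : ℝ) * ∑ e : ι → Bool, f e ^ 2 := by
    have h2 : 4 * ∑ S : ι → Bool, (tc S : ℝ) * tr f S ^ 2 =
        ∑ i, ∑ S : ι → Bool, tr (fun e => f e - f (flip i e)) S ^ 2 := by
      rw [sum_comm, mul_sum]
      refine sum_congr rfl (fun S _ => ?_)
      simp_rw [tr_diff, mul_pow]
      rw [← sum_mul]
      have : ∑ i, ((if S i = true then (2:ℝ) else 0)) ^ 2 = 4 * (tc S : ℝ) := by
        have h : ∀ i, ((if S i = true then (2:ℝ) else 0)) ^ 2 = if S i = true then 4 else 0 := by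
          intro i; split_ifs <;> norm_num
        simp_rw [h]
        rw [sum_ite]
        simp [tc]
        ring
      rw [this]
      ring
    have h3 : ∑ i, ∑ S : ι → Bool, tr (fun e => f e - f (flip i e)) S ^ 2 =
        (Fintype.card (ι → Bool) : ℝ) * (2 * ∑ e : ι → Bool, f e * ∑ i, (f e - f (flip i e))) := by
      simp_rw [parseval', flip_sum_sq]
      rw [← mul_sum, ← mul_sum, sum_comm]
      simp_rw [← mul_sum]
    have h4 : ∑ e : ι → Bool, f e * ∑ i, (f e - f (flip i e)) ≤ 2 * ∑ e : ι → Bool, f e ^ 2 := by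
      rw [mul_sum]
      refine sum_le_sum (fun e _ => ?_)
      have := mul_le_mul_of_nonneg_left (hL e) (h0 e)
      nlinarith
    have h5 := mul_le_mul_of_nonneg_left h4 hN
    nlinarith
  -- odd coefficients vanish
  have hodd : ∀ S : ι → Bool, tc S = 1 → tr f S = 0 := by
    intro S hS
    have h2 : tr f S = - tr f S := by
      calc tr f S = ∑ e : ι → Bool, ch S (neg e) * f (neg e) := (sum_neg' _).symm
        _ = ∑ e : ι → Bool, - (ch S e * f e) := by
          refine sum_congr rfl (fun e _ => ?_)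
          rw [ch_neg, heven, hS]
          ring
        _ = - tr f S := by rw [sum_neg_distrib]; rfl
    linarith
  -- the constant coefficient
  have hzero : tr f (fun _ => false) = ∑ e : ι → Bool, f e := by
    unfold tr ch
    simp
  have hp := parseval' f
  have h6 : 2 * (∑ S : ι → Bool, tr f S ^ 2) - 2 * tr f (fun _ => false) ^ 2 ≤
      ∑ S : ι → Bool, (tc S : ℝ) * tr f S ^ 2 := by
    have h7 : ∀ S : ι → Bool, 2 * tr f S ^ 2 - (if S = (fun _ => false) then
        2 * tr f (fun _ => false) ^ 2 else 0) ≤ (tc S : ℝ) * tr f S ^ 2 := by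
      intro S
      split_ifs with h
      · subst h
        have : (0:ℝ) ≤ (tc (fun _ : ι => false) : ℝ) := Nat.cast_nonneg _
        nlinarith [sq_nonneg (tr f (fun _ => false))]
      · by_cases h1 : tc S = 1
        · rw [hodd S h1]; simp
        · have h2 : 2 ≤ tc S := by
            have h3 : tc S ≠ 0 := by
              intro h4
              apply h
              unfold tc at h4
              rw [card_eq_zero, filter_eq_empty_iff] at h4
              funext i
              have := h4 (mem_univ i)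
              simpa using this
            omega
          have h3 : (2:ℝ) ≤ (tc S : ℝ) := by exact_mod_cast h2
          nlinarith [sq_nonneg (tr f S)]
    have h8 := sum_le_sum (fun S (_ : S ∈ (univ : Finset (ι → Bool))) => h7 S)
    rw [sum_sub_distrib, ← mul_sum] at h8
    simpa using h8
  rw [hzero] at h6
  nlinarith

/-- Khintchine's inequality with the best constant (in the form needed). -/
lemma khintchine (g : ι → ℝ) :
    (Fintype.card (ι → Bool) : ℝ) ^ 2 * ∑ i, g i ^ 2 ≤
      2 * (∑ e : ι → Bool, |∑ i, g i * sg (e i)|) ^ 2 := by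
  have h := even_poincare (fun e : ι → Bool => |∑ i, g i * sg (e i)|) ?_ (fun e => abs_nonneg _) ?_
  · simp only [sq_abs] at h
    rw [wsum] at h
    nlinarith
  · intro e
    show |∑ i, g i * sg (neg e i)| = |∑ i, g i * sg (e i)|
    have : ∑ i, g i * sg (neg e i) = - ∑ i, g i * sg (e i) := by
      rw [← sum_neg_distrib]
      refine sum_congr rfl (fun i _ => ?_)
      simp [neg, sg_not]
    rw [this, abs_neg]
  · intro e
    have h1 : ∀ i, ∑ j, g j * sg (flip i e j) = ∑ j, g j * sg (e j) - 2 * (g i * sg (e i)) := by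
      intro i
      rw [← Finset.add_sum_erase univ _ (mem_univ i),
        ← Finset.add_sum_erase univ (fun j => g j * sg (e j)) (mem_univ i), sg_flip_self]
      have : ∑ j ∈ univ.erase i, g j * sg (flip i e j) = ∑ j ∈ univ.erase i, g j * sg (e j) := by
        refine sum_congr rfl (fun j hj => ?_)
        rw [sg_flip_ne i j (ne_of_mem_erase hj)]
      rw [this]
      ring
    set s := ∑ j, g j * sg (e j) with hs
    have h2 : ∑ i, |∑ j, g j * sg (flip i e j)| ≥ |((Fintype.card ι : ℝ) - 2) * s| := by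
      have h3 : ((Fintype.card ι : ℝ) - 2) * s = ∑ i, ∑ j, g j * sg (flip i e j) := by
        simp_rw [h1, sum_sub_distrib, ← mul_sum]
        rw [← hs]
        simp
        ring
      rw [h3]
      exact abs_sum_le_sum_abs _ _
    rw [sum_sub_distrib]
    have h4 : ∑ _i : ι, |s| = (Fintype.card ι : ℝ) * |s| := by simp
    rw [h4]
    rw [abs_mul] at h2
    have h5 : |((Fintype.card ι : ℝ) - 2)| ≥ (Fintype.card ι : ℝ) - 2 := le_abs_self _
    nlinarith [abs_nonneg s]

end Pool.Agent.Q268.BV
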