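import Mathlib
import Pool.Agent.Q268.BV.Khin

set_option autoImplicit false

namespace Pool.Agent.Q268.BV

open Finset
open scoped InnerProductSpace

variable {ι : Type*} [Fintype ι] [DecidableEq ι]
variable {E : Type*} [NormedAddCommGroup E] [InnerProductSpace ℝ E]

/-- average of the squared norm, general vectors -/
lemma avg_gen (v : ι → E) :
    ∑ e : ι → Bool, ‖∑ i, sg (e i) • v i‖ ^ 2 =
      (Fintype.card (ι → Bool) : ℝ) * ∑ i, ‖v i‖ ^ 2 := by
  simp_rw [normsq_expand]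
  rw [sum_comm]
  have : ∀ i : ι, ∑ e : ι → Bool, ∑ j, ⟪v i, v j⟫_ℝ * (sg (e i) * sg (e j)) =
      (Fintype.card (ι → Bool) : ℝ) * ‖v i‖ ^ 2 := by
    intro i
    rw [sum_comm]
    simp_rw [← mul_sum, mom2]
    simp [real_inner_self_eq_norm_sq, mul_comm]
  simp_rw [this]
  rw [mul_sum]

/-- The test by Khintchine's inequality. -/
lemma khin_base (w : E) (c : ι → E) (B : ℝ)
    (hb : ∀ e : ι → Bool, B < ‖w + ∑ i, sg (e i) • c i‖ ^ 2) :
    0 < ‖w‖ ^ 2 + ∑ i, ‖c i‖ ^ 2 - B ∧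
      2 * ∑ i, ⟪w, c i⟫_ℝ ^ 2 < (‖w‖ ^ 2 + ∑ i, ‖c i‖ ^ 2 - B) ^ 2 := by
  set N : ℝ := (Fintype.card (ι → Bool) : ℝ) with hN
  have hNpos : 0 < N := by
    rw [hN]; exact_mod_cast Fintype.card_pos
  have hin : ∀ e : ι → Bool, ⟪w, ∑ i, sg (e i) • c i⟫_ℝ = ∑ i, ⟪w, c i⟫_ℝ * sg (e i) := by
    intro e
    rw [inner_sum]
    refine sum_congr rfl (fun i _ => ?_)
    rw [real_inner_smul_right, mul_comm]
  have hneg : ∀ e : ι → Bool, ∑ i, sg (neg e i) • c i = - ∑ i, sg (e i) • c i := by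
    intro e
    rw [← sum_neg_distrib]
    refine sum_congr rfl (fun i _ => ?_)
    simp [neg, sg_not]
  have h1 : ∀ e : ι → Bool, B < ‖w‖ ^ 2 + ‖∑ i, sg (e i) • c i‖ ^ 2
      - 2 * |∑ i, ⟪w, c i⟫_ℝ * sg (e i)| := by
    intro e
    have a1 := hb e
    have a2 := hb (neg e)
    rw [hneg, ← sub_eq_add_neg, norm_sub_sq_real, hin] at a2
    rw [norm_add_sq_real, hin] at a1
    rcases abs_cases (∑ i, ⟪w, c i⟫_ℝ * sg (e i)) with ⟨h, _⟩ | ⟨h, _⟩
    · rw [h]; linarith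
    · rw [h]; linarith
  have h2 : N * B < N * (‖w‖ ^ 2 + ∑ i, ‖c i‖ ^ 2)
      - 2 * ∑ e : ι → Bool, |∑ i, ⟪w, c i⟫_ℝ * sg (e i)| := by
    have h3 := sum_lt_sum_of_nonempty (s := (univ : Finset (ι → Bool)))
      ⟨fun _ => true, mem_univ _⟩ (fun e _ => h1 e)
    rw [sum_sub_distrib, sum_add_distrib, avg_gen, ← mul_sum] at h3
    simp only [sum_const, card_univ, nsmul_eq_mul] at h3
    linarith
  have h3 := khintchine (fun i => ⟪w, c i⟫_ℝ)
  set M := ∑ e : ι → Bool, |∑ i, ⟪w, c i⟫_ℝ * sg (e i)| with hM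
  have hM0 : 0 ≤ M := sum_nonneg (fun e _ => abs_nonneg _)
  set A := ‖w‖ ^ 2 + ∑ i, ‖c i‖ ^ 2 - B with hA
  have h4 : 2 * M < N * A := by rw [hA]; linarith
  have hA0 : 0 < A := by
    by_contra h
    push_neg at h
    have := mul_nonpos_of_nonneg_of_nonpos hNpos.le h
    linarith
  refine ⟨hA0, ?_⟩
  have h5 : (2 * M) ^ 2 < (N * A) ^ 2 := by
    apply pow_lt_pow_left₀ h4 (by positivity) (by norm_num)
  have h6 : N ^ 2 * (2 * ∑ i, ⟪w, c i⟫_ℝ ^ 2) < N ^ 2 * A ^ 2 := by nlinarith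
  exact lt_of_mul_lt_mul_left h6 (by positivity)

/-- The test by a linear dependency with base vector `w`. -/
lemma weighted_base (w : E) (c : ι → E) (x0 : ℝ) (x : ι → ℝ) (hx : x0 • w + ∑ i, x i • c i = 0)
    (hne : x0 ≠ 0 ∨ ∃ i, x i ≠ 0) (B : ℝ)
    (hb : ∀ e : ι → Bool, B < ‖w + ∑ i, sg (e i) • c i‖ ^ 2) :
    B * (x0 ^ 2 + ∑ i, x i ^ 2) < (‖w‖ ^ 2 + ∑ i, ‖c i‖ ^ 2) * (x0 ^ 2 + ∑ i, x i ^ 2)
      - 2 * (x0 ^ 2 * ‖w‖ ^ 2 + ∑ i, x i ^ 2 * ‖c i‖ ^ 2) := by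
  have h := weighted (ι := Option ι) (fun o => o.elim w c) (fun o => o.elim x0 x) ?_ ?_ B ?_
  · simpa [Fintype.sum_option] using h
  · simpa [Fintype.sum_option] using hx
  · rcases hne with h | ⟨i, hi⟩
    · exact ⟨none, h⟩
    · exact ⟨some i, hi⟩
  · intro e
    rw [Fintype.sum_option]
    simp only [Option.elim]
    rcases Bool.eq_false_or_eq_true (e none) with h | h
    · rw [h]
      have := hb (fun i => e (some i))
      simpa [sg] using this
    · rw [h]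
      have := hb (fun i => !(e (some i)))
      have h2 : ∑ i, sg (!(e (some i))) • c i = - ∑ i, sg (e (some i)) • c i := by
        rw [← sum_neg_distrib]
        refine sum_congr rfl (fun i _ => ?_)
        simp [sg_not]
      rw [h2] at this
      have h3 : sg false • w + ∑ i, sg (e (some i)) • c i =
          -(w + - ∑ i, sg (e (some i)) • c i) := by
        have h4 : sg false = -1 := by simp [sg]
        rw [h4]
        module
      rw [h3, norm_neg]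
      exact this

/-- Rounding with base vector, as a test. -/
lemma round_base (w : E) (c : ι → E) (x : ι → ℝ) (hx1 : ∀ i, |x i| ≤ 1)
    (B : ℝ) (hb : ∀ e : ι → Bool, B < ‖w + ∑ i, sg (e i) • c i‖ ^ 2) :
    B < ‖w + ∑ i, x i • c i‖ ^ 2 + ∑ i, (1 - x i ^ 2) * ‖c i‖ ^ 2 := by
  obtain ⟨s, hs, h⟩ := round_all w c x hx1 univ
  have h2 := hb (fun i => decide (s i = 1))
  have h3 : ∀ i, sg (decide (s i = 1)) = s i := by
    intro i
    rcases hs i with h | h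
    · simp [sg, h]
    · rw [h]; norm_num [sg]
  simp_rw [h3] at h2
  linarith

end Pool.Agent.Q268.BV
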