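import Mathlib
import Pool.Agent.Q268.BV.Tests

set_option autoImplicit false

namespace Pool.Agent.Q268.BV

open Finset
open scoped InnerProductSpace

variable {ι : Type*} [Fintype ι] [DecidableEq ι]
variable {E : Type*} [NormedAddCommGroup E] [InnerProductSpace ℝ E]

lemma dep_on [FiniteDimensional ℝ E] (c : ι → E) (T : Finset ι)
    (hT : Module.finrank ℝ E < T.card) :
    ∃ y : ι → ℝ, (∀ i, i ∉ T → y i = 0) ∧ ∑ i, y i • c i = 0 ∧ ∃ i, y i ≠ 0 := by
  have hn : ¬ LinearIndependent ℝ (fun i : T => c i) := by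
    intro h
    have := h.fintype_card_le_finrank
    rw [Fintype.card_coe] at this
    omega
  rw [Fintype.not_linearIndependent_iff] at hn
  obtain ⟨g, hg, i, hi⟩ := hn
  refine ⟨fun i => if h : i ∈ T then g ⟨i, h⟩ else 0, fun i hi => by simp [hi], ?_, i, ?_⟩
  · rw [← hg, ← Finset.sum_subset (Finset.subset_univ T), ← Finset.sum_coe_sort T]
    · refine sum_congr rfl (fun i _ => ?_)
      simp
    · intro i _ hi
      simp [hi]
  · simpa using hi

lemma move_one (x y t : ℝ) (hx : |x| ≤ 1) (hy : y ≠ 0) (ht : 0 ≤ t)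
    (h : t ≤ (|y| - x * y) / y ^ 2) : |x + t * y| ≤ 1 := by
  have hy2 : 0 < y ^ 2 := by positivity
  rw [le_div_iff₀ hy2] at h
  obtain ⟨h1, h2⟩ := abs_le.mp hx
  rw [abs_le]
  rcases lt_or_gt_of_ne hy with h0 | h0
  · rw [abs_of_neg h0] at h
    constructor
    · by_contra hc
      push_neg at hc
      nlinarith
    · nlinarith [mul_nonneg ht (neg_pos.mpr h0).le]
  · rw [abs_of_pos h0] at h
    constructor
    · nlinarith [mul_nonneg ht h0.le]
    · by_contra hc
      push_neg at hc
      nlinarith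

lemma move_hit (x y : ℝ) (hy : y ≠ 0) : |x + (|y| - x * y) / y ^ 2 * y| = 1 := by
  have : x + (|y| - x * y) / y ^ 2 * y = |y| / y := by
    field_simp
    ring
  rw [this, abs_div, abs_abs, div_self (abs_ne_zero.mpr hy)]

lemma move (x y : ι → ℝ) (hx : ∀ i, |x i| ≤ 1)
    (hy : ∀ i, y i ≠ 0 → |x i| < 1 ∨ y i = - x i) (hne : ∃ i, y i ≠ 0) :
    ∃ t : ℝ, 0 < t ∧ (∀ i, |x i + t * y i| ≤ 1) ∧ ∃ i, y i ≠ 0 ∧ |x i + t * y i| = 1 := by
  obtain ⟨i0, hi0⟩ := hne
  have hS : (univ.filter (fun i => y i ≠ 0)).Nonempty := ⟨i0, by simp [hi0]⟩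
  obtain ⟨i, hi, hmin⟩ := exists_min_image (univ.filter (fun i => y i ≠ 0))
    (fun i => (|y i| - x i * y i) / (y i) ^ 2) hS
  have hyi : y i ≠ 0 := (mem_filter.mp hi).2
  have hpos : 0 < (|y i| - x i * y i) / (y i) ^ 2 := by
    apply div_pos _ (by positivity)
    rcases hy i hyi with h | h
    · have h1 : x i * y i ≤ |x i * y i| := le_abs_self _
      rw [abs_mul] at h1
      have h2 : |x i| * |y i| < 1 * |y i| := mul_lt_mul_of_pos_right h (abs_pos.mpr hyi)
      linarith
    · have h1 : 0 < |y i| := abs_pos.mpr hyi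
      have h2 : x i = - y i := by linarith
      rw [h2]
      nlinarith [sq_nonneg (y i)]
  refine ⟨_, hpos, fun l => ?_, i, hyi, move_hit _ _ hyi⟩
  by_cases hl : y l = 0
  · rw [hl, mul_zero, add_zero]; exact hx l
  · exact move_one _ _ _ (hx l) hl hpos.le (hmin l (by simp [hl]))

/-- fractional coordinates -/
noncomputable def fr (x : ι → ℝ) : Finset ι := univ.filter (fun i => |x i| < 1)

omit [DecidableEq ι] in
lemma mem_fr (x : ι → ℝ) (i : ι) : i ∈ fr x ↔ |x i| < 1 := by simp [fr]

lemma exists_basic (c : ι → E) :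
    ∃ x : ι → ℝ, (∀ i, |x i| ≤ 1) ∧ ∑ i, x i • c i = 0 ∧
      ∀ y : ι → ℝ, (∀ i, i ∉ fr x → y i = 0) → ∑ i, y i • c i = 0 → ∀ i, y i = 0 := by
  have key : ∀ m : ℕ, ∀ x : ι → ℝ, (fr x).card = m → (∀ i, |x i| ≤ 1) → ∑ i, x i • c i = 0 →
      ∃ x : ι → ℝ, (∀ i, |x i| ≤ 1) ∧ ∑ i, x i • c i = 0 ∧
      ∀ y : ι → ℝ, (∀ i, i ∉ fr x → y i = 0) → ∑ i, y i • c i = 0 → ∀ i, y i = 0 := by
    intro m
    induction m using Nat.strong_induction_on with
    | _ m ih =>
      intro x hm hx hs
      by_cases h : ∀ y : ι → ℝ, (∀ i, i ∉ fr x → y i = 0) → ∑ i, y i • c i = 0 → ∀ i, y i = 0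
      · exact ⟨x, hx, hs, h⟩
      · push_neg at h
        obtain ⟨y, hy, hys, hne⟩ := h
        have hfrac : ∀ i, y i ≠ 0 → |x i| < 1 := by
          intro i hi
          by_contra hc
          exact hi (hy i (fun h => hc ((mem_fr x i).mp h)))
        obtain ⟨t, ht, hle, i, hi, hhit⟩ := move x y hx (fun i hi => Or.inl (hfrac i hi)) hne
        · have hi' : i ∈ fr x := (mem_fr x i).mpr (hfrac i hi)
          have hsub : fr (fun i => x i + t * y i) ⊆ (fr x).erase i := by
            intro l hl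
            rw [mem_fr] at hl
            rw [mem_erase]
            refine ⟨?_, ?_⟩
            · rintro rfl
              linarith
            · by_contra hc
              rw [hy l hc, mul_zero, add_zero] at hl
              exact hc ((mem_fr x l).mpr hl)
          have hcard : (fr (fun i => x i + t * y i)).card < m := by
            have h1 := card_le_card hsub
            rw [card_erase_of_mem hi', hm] at h1
            have h2 : 0 < m := by rw [← hm]; exact card_pos.mpr ⟨i, hi'⟩
            omega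
          refine ih _ hcard _ rfl hle ?_
          simp_rw [add_smul, sum_add_distrib, mul_smul, ← smul_sum]
          rw [hs, hys, smul_zero, add_zero]
  exact key _ (fun _ => 0) rfl (fun i => by simp) (by simp)

end Pool.Agent.Q268.BV
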