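import Mathlib
import Pool.Agent.Q268.BV.Kernel

set_option autoImplicit false

namespace Pool.Agent.Q268.BV

open Finset
open scoped InnerProductSpace

variable {ι : Type*} [Fintype ι] [DecidableEq ι]

def on (S : ι → Bool) : Finset ι := univ.filter (fun i => S i = true)
def off (S : ι → Bool) : Finset ι := univ.filter (fun i => S i = false)

lemma mem_on (S : ι → Bool) (i : ι) : i ∈ on S ↔ S i = true := by simp [on]
lemma mem_off (S : ι → Bool) (i : ι) : i ∈ off S ↔ S i = false := by simp [off]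

lemma on_flip (U : ι → Bool) (i : ι) (h : U i = false) : on (flip i U) = insert i (on U) := by
  ext j
  rw [mem_insert, mem_on, mem_on]
  by_cases hj : j = i
  · subst hj; simp [flip_self', h]
  · simp [flip_ne' i j hj, hj]

lemma off_flip (U : ι → Bool) (i : ι) (h : U i = false) : off (flip i U) = (off U).erase i := by
  ext j
  rw [mem_erase, mem_off, mem_off]
  by_cases hj : j = i
  · subst hj; simp [flip_self', h]
  · simp [flip_ne' i j hj, hj]

lemma wt_eq (U : ι → Bool) : wt U = (on U).card := rfl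

lemma card_on_off (U : ι → Bool) : (on U).card + (off U).card = Fintype.card ι := by
  have h : off U = (on U)ᶜ := by
    ext j; simp [mem_off, mem_on]
  rw [h, Finset.card_compl]
  have := Finset.card_le_univ (on U)
  omega

/-- the weights for vectors on a rational normal curve -/
noncomputable def Tc (c z : ι → ℝ) (k : ℕ) (S : ι → Bool) : ℝ :=
  if wt S = k then (∏ i ∈ on S, (c i)⁻¹) * ∏ i ∈ on S, ∏ j ∈ off S, (z i - z j)⁻¹ else 0

lemma Tc_flip (c z : ι → ℝ) (hz : Function.Injective z) (k : ℕ) (U : ι → Bool) (i : ι)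
    (h : U i = false) (hk : wt U + 1 = k) :
    Tc c z k (flip i U) = ((∏ r ∈ on U, (c r)⁻¹) * ∏ r ∈ on U, ∏ j ∈ off U, (z r - z j)⁻¹) *
      ((c i)⁻¹ * ((∏ r ∈ on U, (z r - z i)) / ∏ j ∈ (off U).erase i, (z i - z j))) := by
  have hi : i ∉ on U := by rw [mem_on, h]; simp
  have hi' : i ∈ off U := by rw [mem_off, h]
  have hw : wt (flip i U) = k := by
    rw [wt_eq, on_flip U i h, card_insert_of_notMem hi, ← hk, wt_eq]
  unfold Tc
  rw [if_pos hw, on_flip U i h, off_flip U i h, prod_insert hi, prod_insert hi]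
  have h1 : ∀ r ∈ on U, ∏ j ∈ (off U).erase i, (z r - z j)⁻¹ =
      (z r - z i) * ∏ j ∈ off U, (z r - z j)⁻¹ := by
    intro r hr
    have hne : z r - z i ≠ 0 := by
      intro h0
      have : r = i := hz (by linarith)
      exact hi (this ▸ hr)
    rw [← Finset.mul_prod_erase (off U) (fun j => (z r - z j)⁻¹) hi', ← mul_assoc,
      mul_inv_cancel₀ hne, one_mul]
  rw [prod_congr rfl h1, prod_mul_distrib, prod_inv_distrib (fun j => z i - z j)]
  rw [div_eq_mul_inv]
  ring

variable {E : Type*} [NormedAddCommGroup E] [InnerProductSpace ℝ E]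

lemma interp_zero (z : ι → ℝ) (hz : Function.Injective z) (s R : Finset ι) (a : ℕ)
    (h : a + R.card + 1 < s.card) :
    ∑ i ∈ s, (z i ^ a * ∏ r ∈ R, (z r - z i)) / ∏ j ∈ s.erase i, (z i - z j) = 0 := by
  have hdeg : (Polynomial.X ^ a * ∏ r ∈ R, (Polynomial.C (z r) - Polynomial.X) :
      Polynomial ℝ).natDegree ≤ a + R.card := by
    refine (Polynomial.natDegree_mul_le).trans ?_
    refine add_le_add (by simp) ?_
    refine (Polynomial.natDegree_prod_le _ _).trans ?_
    refine (sum_le_card_nsmul _ _ 1 (fun r _ => ?_)).trans (by simp)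
    refine (Polynomial.natDegree_sub_le _ _).trans ?_
    simp
  have hd2 : (Polynomial.X ^ a * ∏ r ∈ R, (Polynomial.C (z r) - Polynomial.X) :
      Polynomial ℝ).degree < s.card := by
    refine lt_of_le_of_lt Polynomial.degree_le_natDegree ?_
    exact_mod_cast lt_of_le_of_lt hdeg (by omega)
  have h1 := Lagrange.coeff_eq_sum (s := s) (v := z) hz.injOn hd2
  rw [Polynomial.coeff_eq_zero_of_natDegree_lt (by omega)] at h1
  rw [h1]
  refine sum_congr rfl (fun i _ => ?_)
  congr 1
  rw [Polynomial.eval_mul, Polynomial.eval_prod]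
  simp

lemma curve_ker {d : ℕ} (v : ι → E) (w : Fin d → E) (c z : ι → ℝ)
    (hz : Function.Injective z) (hc : ∀ i, c i ≠ 0)
    (hv : ∀ i, v i = c i • ∑ a : Fin d, z i ^ (a : ℕ) • w a) (k : ℕ)
    (hcard : Fintype.card ι + 1 = 2 * k + d) (U : ι → Bool) :
    ∑ i, Nn (Tc c z k) i U • v i = 0 := by
  by_cases hk : wt U + 1 = k
  · have h1 : ∑ i, Nn (Tc c z k) i U • v i = ∑ i ∈ off U, Tc c z k (flip i U) • v i := by
      rw [off, sum_filter]
      refine sum_congr rfl (fun i _ => ?_)
      unfold Nn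
      cases U i <;> simp
    rw [h1]
    set C : ℝ := (∏ r ∈ on U, (c r)⁻¹) * ∏ r ∈ on U, ∏ j ∈ off U, (z r - z j)⁻¹ with hC
    have h2 : ∀ i ∈ off U, Tc c z k (flip i U) • v i = C • ∑ a : Fin d,
        ((z i ^ (a : ℕ) * ∏ r ∈ on U, (z r - z i)) / ∏ j ∈ (off U).erase i, (z i - z j)) • w a := by
      intro i hi
      rw [Tc_flip c z hz k U i ((mem_off U i).mp hi) hk, ← hC, hv i, smul_smul]
      have e1 : C * ((c i)⁻¹ * ((∏ r ∈ on U, (z r - z i)) / ∏ j ∈ (off U).erase i, (z i - z j))) *
          c i = C * ((∏ r ∈ on U, (z r - z i)) / ∏ j ∈ (off U).erase i, (z i - z j)) := by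
        have h0 := hc i
        generalize (∏ r ∈ on U, (z r - z i)) / ∏ j ∈ (off U).erase i, (z i - z j) = X
        field_simp
      rw [e1, mul_smul, smul_sum]
      congr 1
      refine sum_congr rfl (fun a _ => ?_)
      rw [smul_smul]
      congr 1
      ring
    rw [sum_congr rfl h2, ← smul_sum, sum_comm]
    have h3 : ∀ a : Fin d, ∑ i ∈ off U, ((z i ^ (a : ℕ) * ∏ r ∈ on U, (z r - z i)) /
        ∏ j ∈ (off U).erase i, (z i - z j)) • w a = 0 := by
      intro a
      rw [← sum_smul, interp_zero z hz (off U) (on U) a, zero_smul]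
      have e2 := card_on_off U
      rw [wt_eq] at hk
      have := a.2
      omega
    rw [sum_eq_zero (fun a _ => h3 a), smul_zero]
  · refine sum_eq_zero (fun i _ => ?_)
    unfold Nn
    cases hU : U i
    · have hi : i ∉ on U := by rw [mem_on, hU]; simp
      have hw : wt (flip i U) ≠ k := by
        rw [wt_eq, on_flip U i hU, card_insert_of_notMem hi, ← wt_eq]; exact hk
      simp [Tc, hw]
    · simp

lemma Tc_ne (c z : ι → ℝ) (hz : Function.Injective z) (hc : ∀ i, c i ≠ 0) (S : ι → Bool) :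
    Tc c z (wt S) S ≠ 0 := by
  unfold Tc
  rw [if_pos rfl]
  refine mul_ne_zero (prod_ne_zero_iff.mpr (fun i _ => inv_ne_zero (hc i))) ?_
  refine prod_ne_zero_iff.mpr (fun i hi => prod_ne_zero_iff.mpr (fun j hj => inv_ne_zero ?_))
  rw [mem_on] at hi
  rw [mem_off] at hj
  intro h0
  have : i = j := hz (by linarith)
  rw [this, hj] at hi
  exact absurd hi (by simp)

/-- pairwise different points of a rational normal curve -/
theorem curve_core {d : ℕ} (v : ι → E) (hu : ∀ i, ‖v i‖ = 1) (w : Fin d → E) (c z : ι → ℝ)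
    (hz : Function.Injective z)
    (hv : ∀ i, v i = c i • ∑ a : Fin d, z i ^ (a : ℕ) • w a) (k : ℕ)
    (hcard : Fintype.card ι + 1 = 2 * k + d) (hd : 1 ≤ d) :
    ∃ e : ι → Bool, ‖∑ i, sg (e i) • v i‖ ^ 2 ≤ (d : ℝ) - 1 := by
  have hc : ∀ i, c i ≠ 0 := by
    intro i h0
    have := hu i
    rw [hv i, h0, zero_smul, norm_zero] at this
    exact zero_ne_one this
  have hle : k ≤ Fintype.card ι := by omega
  obtain ⟨A, hA⟩ := Finset.exists_subset_card_eq (s := (univ : Finset ι)) (n := k)
    (by rw [card_univ]; exact hle)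
  have hw : wt (fun i => decide (i ∈ A)) = k := by
    unfold wt
    rw [← hA.2]
    congr 1
    ext i; simp
  have h := kernel_criterion v hu (Tc c z k) k (fun S hS => by unfold Tc; rw [if_neg hS])
    ⟨fun i => decide (i ∈ A), by rw [← hw]; exact Tc_ne c z hz hc _⟩
    (curve_ker v w c z hz hc hv k hcard)
  obtain ⟨e, he⟩ := h
  refine ⟨e, he.trans ?_⟩
  have h2 : (Fintype.card ι : ℝ) + 1 = 2 * k + d := by exact_mod_cast hcard
  linarith

end Pool.Agent.Q268.BV
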