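import Mathlib
import Pool.Agent.Q268.BV.Basic

set_option autoImplicit false

namespace Pool.Agent.Q268.BV

open Finset
open scoped InnerProductSpace

variable {ι : Type*} [Fintype ι] [DecidableEq ι]
variable {E : Type*} [NormedAddCommGroup E] [InnerProductSpace ℝ E]

/-- all signed sums have squared norm more than `B` -/
def Low (c : ι → E) (B : ℝ) : Prop :=
  ∀ s : ι → ℝ, (∀ i, s i = 1 ∨ s i = -1) → B < ‖∑ i, s i • c i‖ ^ 2

/-- the integral part of the combination with coefficients `x` -/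
noncomputable def ip (c : ι → E) (x : ι → ℝ) : E := ∑ i, (if |x i| < 1 then 0 else x i) • c i

omit [DecidableEq ι] in
lemma low_base (c : ι → E) (x : ι → ℝ) (hx : ∀ i, |x i| ≤ 1) (B : ℝ) (hb : Low c B)
    (e : ι → Bool) :
    B < ‖ip c x + ∑ i, sg (e i) • (if |x i| < 1 then c i else 0)‖ ^ 2 := by
  have h := hb (fun i => if |x i| < 1 then sg (e i) else x i) (fun i => ?_)
  · have h2 : ∑ i, (if |x i| < 1 then sg (e i) else x i) • c i =
        ip c x + ∑ i, sg (e i) • (if |x i| < 1 then c i else 0) := by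
      unfold ip
      rw [← sum_add_distrib]
      refine sum_congr rfl (fun i _ => ?_)
      split_ifs <;> simp
    rw [h2] at h
    exact h
  · by_cases h1 : |x i| < 1
    · simp only [h1, if_true]; exact sg_or _
    · simp only [h1, if_false]
      have h2 : |x i| = 1 := le_antisymm (hx i) (not_lt.mp h1)
      rcases abs_cases (x i) with ⟨h3, _⟩ | ⟨h3, _⟩
      · left; linarith
      · right; linarith

lemma tests (c : ι → E) (x : ι → ℝ) (hx : ∀ i, |x i| ≤ 1) (hs : ∑ i, x i • c i = 0) (B : ℝ)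
    (hb : Low c B) :
    B < ∑ i ∈ fr x, (1 - x i ^ 2) * ‖c i‖ ^ 2 ∧
    B * (1 + ∑ i ∈ fr x, x i ^ 2) <
      (‖ip c x‖ ^ 2 + ∑ i ∈ fr x, ‖c i‖ ^ 2) * (1 + ∑ i ∈ fr x, x i ^ 2)
        - 2 * (‖ip c x‖ ^ 2 + ∑ i ∈ fr x, x i ^ 2 * ‖c i‖ ^ 2) ∧
    0 < ‖ip c x‖ ^ 2 + ∑ i ∈ fr x, ‖c i‖ ^ 2 - B ∧
    2 * (‖ip c x‖ ^ 2) ^ 2 ≤
      (∑ i ∈ fr x, x i ^ 2) * (‖ip c x‖ ^ 2 + ∑ i ∈ fr x, ‖c i‖ ^ 2 - B) ^ 2 := by
  set w := ip c x with hw
  set c' : ι → E := fun i => if |x i| < 1 then c i else 0 with hc'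
  have hlow : ∀ e : ι → Bool, B < ‖w + ∑ i, sg (e i) • c' i‖ ^ 2 := low_base c x hx B hb
  have hwx : w + ∑ i, x i • c' i = 0 := by
    rw [← hs, hw]
    unfold ip
    rw [← sum_add_distrib]
    refine sum_congr rfl (fun i _ => ?_)
    simp only [hc']
    split_ifs <;> simp
  have hN : ∑ i, ‖c' i‖ ^ 2 = ∑ i ∈ fr x, ‖c i‖ ^ 2 := by
    unfold fr
    rw [sum_filter]
    refine sum_congr rfl (fun i _ => ?_)
    simp only [hc']
    split_ifs <;> simp
  refine ⟨?_, ?_, ?_⟩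
  · have h := round_base w c' x hx B hlow
    rw [hwx] at h
    unfold fr
    rw [sum_filter]
    simp only [norm_zero, ne_eq, OfNat.ofNat_ne_zero, not_false_eq_true, zero_pow, zero_add] at h
    refine lt_of_lt_of_eq h (sum_congr rfl (fun i _ => ?_))
    simp only [hc']
    split_ifs <;> simp
  · have h := weighted_base w c' 1 (fun i => if |x i| < 1 then x i else 0) ?_
      (Or.inl one_ne_zero) B hlow
    · rw [hN] at h
      have e1 : ∑ i, (if |x i| < 1 then x i else 0) ^ 2 = ∑ i ∈ fr x, x i ^ 2 := by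
        unfold fr
        rw [sum_filter]
        refine sum_congr rfl (fun i _ => ?_)
        split_ifs <;> simp
      have e2 : ∑ i, (if |x i| < 1 then x i else 0) ^ 2 * ‖c' i‖ ^ 2 =
          ∑ i ∈ fr x, x i ^ 2 * ‖c i‖ ^ 2 := by
        unfold fr
        rw [sum_filter]
        refine sum_congr rfl (fun i _ => ?_)
        simp only [hc']
        split_ifs <;> simp
      rw [e1, e2] at h
      simpa using h
    · rw [one_smul, ← hwx]
      congr 1
      refine sum_congr rfl (fun i _ => ?_)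
      simp only [hc']
      split_ifs <;> simp
  · obtain ⟨h1, h2⟩ := khin_base w c' B hlow
    rw [hN] at h1 h2
    refine ⟨h1, ?_⟩
    have hin : ‖w‖ ^ 2 = - ∑ i, (if |x i| < 1 then x i else 0) * ⟪w, c' i⟫_ℝ := by
      have h3 : w = - ∑ i, x i • c' i := eq_neg_of_add_eq_zero_left hwx
      have h4 : ⟪w, w⟫_ℝ = ⟪w, - ∑ i, x i • c' i⟫_ℝ := congrArg (fun z => ⟪w, z⟫_ℝ) h3
      rw [← real_inner_self_eq_norm_sq, h4, inner_neg_right, inner_sum]
      congr 1
      refine sum_congr rfl (fun i _ => ?_)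
      rw [real_inner_smul_right]
      simp only [hc']
      split_ifs <;> simp
    have hcs : (∑ i, (if |x i| < 1 then x i else 0) * ⟪w, c' i⟫_ℝ) ^ 2 ≤
        (∑ i, (if |x i| < 1 then x i else 0) ^ 2) * ∑ i, ⟪w, c' i⟫_ℝ ^ 2 :=
      sum_mul_sq_le_sq_mul_sq _ _ _
    have e1 : ∑ i, (if |x i| < 1 then x i else 0) ^ 2 = ∑ i ∈ fr x, x i ^ 2 := by
      unfold fr
      rw [sum_filter]
      refine sum_congr rfl (fun i _ => ?_)
      split_ifs <;> simp
    rw [e1] at hcs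
    have hX : 0 ≤ ∑ i ∈ fr x, x i ^ 2 := sum_nonneg (fun i _ => sq_nonneg _)
    have h5 : (‖w‖ ^ 2) ^ 2 ≤ (∑ i ∈ fr x, x i ^ 2) * ∑ i, ⟪w, c' i⟫_ℝ ^ 2 := by
      rw [hin, neg_sq]; exact hcs
    calc 2 * (‖w‖ ^ 2) ^ 2 ≤ (∑ i ∈ fr x, x i ^ 2) * (2 * ∑ i, ⟪w, c' i⟫_ℝ ^ 2) := by linarith
      _ ≤ _ := mul_le_mul_of_nonneg_left h2.le hX

end Pool.Agent.Q268.BV
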