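import Mathlib
import Pool.Agent.Q268.BV.Points

set_option autoImplicit false

namespace Pool.Agent.Q268.BV

open Finset
open scoped InnerProductSpace

variable {ι : Type*} [Fintype ι] [DecidableEq ι]
variable {E : Type*} [NormedAddCommGroup E] [InnerProductSpace ℝ E]

/-- the inequality for the squared norm `r` and `X = ∑ x²` -/
lemma arith_A (r X : ℝ) (hr : 0 ≤ r) (hX0 : 0 ≤ X) (hX : X < 1 / 2)
    (h2 : (r + 1 / 2) * (1 + X) - 2 * (r + X) > 0) (h3 : 2 * r ^ 2 ≤ X * (r + 1 / 2) ^ 2) :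
    r < 1 / 4 := by
  by_contra hc
  push_neg at hc
  have h4 : X * (3 / 2 - r) < 1 / 2 - r := by nlinarith
  have h5 : r < 1 / 2 := by
    by_contra h6
    push_neg at h6
    rcases le_or_gt r (3 / 2) with h7 | h7
    · have : 0 ≤ X * (3 / 2 - r) := mul_nonneg hX0 (by linarith)
      linarith
    · have : X * (r - 3 / 2) ≤ 1 / 2 * (r - 3 / 2) :=
        mul_le_mul_of_nonneg_right hX.le (by linarith)
      nlinarith
  have h6 : 0 < 3 / 2 - r := by linarith
  have h7 : 2 * r ^ 2 * (3 / 2 - r) ≤ (X * (3 / 2 - r)) * (r + 1 / 2) ^ 2 := by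
    have := mul_le_mul_of_nonneg_right h3 h6.le
    nlinarith
  have h8 : (X * (3 / 2 - r)) * (r + 1 / 2) ^ 2 < (1 / 2 - r) * (r + 1 / 2) ^ 2 :=
    mul_lt_mul_of_pos_right h4 (by positivity)
  have h9 : 0 ≤ -r ^ 3 + 7 / 2 * r ^ 2 - r / 4 - 1 / 8 := by
    nlinarith [mul_nonneg (sub_nonneg.mpr hc) (sub_nonneg.mpr h5.le),
      mul_nonneg (mul_nonneg (sub_nonneg.mpr hc) (sub_nonneg.mpr h5.le)) hr]
  nlinarith

lemma stageA_point (v : ι → E) (hv : ∀ i, ‖v i‖ = 1) (d : ℕ) (hb : Low v ((d : ℝ) - 1 / 2))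
    (x : ι → ℝ) (hx : ∀ i, |x i| ≤ 1) (hs : ∑ i, x i • v i = 0) (hc : (fr x).card ≤ d) :
    (fr x).card = d ∧ ‖ip v x‖ < 1 / 2 := by
  obtain ⟨t1, t2, t3, t4⟩ := tests v x hx hs _ hb
  have e1 : ∑ i ∈ fr x, (1 - x i ^ 2) * ‖v i‖ ^ 2 = ((fr x).card : ℝ) - ∑ i ∈ fr x, x i ^ 2 := by
    simp_rw [hv]
    rw [card_eq_sum_ones]
    push_cast
    rw [← sum_sub_distrib]
    refine sum_congr rfl (fun i _ => ?_)
    ring
  have e2 : ∑ i ∈ fr x, ‖v i‖ ^ 2 = ((fr x).card : ℝ) := by
    simp_rw [hv]; simp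
  have e3 : ∑ i ∈ fr x, x i ^ 2 * ‖v i‖ ^ 2 = ∑ i ∈ fr x, x i ^ 2 := by
    simp_rw [hv]; simp
  rw [e1] at t1
  rw [e2] at t2 t4
  rw [e3] at t2
  set X := ∑ i ∈ fr x, x i ^ 2 with hXdef
  have hX0 : 0 ≤ X := sum_nonneg (fun i _ => sq_nonneg _)
  have hcd : (fr x).card = d := by
    by_contra hne
    have h1 : (fr x).card + 1 ≤ d := by omega
    have h2 : ((fr x).card : ℝ) + 1 ≤ d := by exact_mod_cast h1
    linarith
  refine ⟨hcd, ?_⟩
  rw [hcd] at t1 t2 t4
  set r := ‖ip v x‖ ^ 2 with hr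
  have hr0 : 0 ≤ r := by rw [hr]; positivity
  have h4 : r < 1 / 4 := by
    refine arith_A r X hr0 hX0 (by linarith) (by nlinarith) ?_
    have : r + d - (d - 1 / 2) = r + 1 / 2 := by ring
    rw [this] at t4
    exact t4
  have h5 : ‖ip v x‖ ^ 2 < (1 / 2) ^ 2 := by rw [← hr]; linarith
  exact lt_of_pow_lt_pow_left₀ 2 (by norm_num) h5

lemma abs_one_or {a : ℝ} (h : |a| = 1) : a = 1 ∨ a = -1 := by
  rcases abs_cases a with ⟨h3, _⟩ | ⟨h3, _⟩
  · left; linarith
  · right; linarith

lemma edge [FiniteDimensional ℝ E] (v : ι → E) (hv : ∀ i, ‖v i‖ = 1)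
    (hb : Low v ((Module.finrank ℝ E : ℝ) - 1 / 2))
    (x : ι → ℝ) (hx : ∀ i, |x i| ≤ 1) (hs : ∑ i, x i • v i = 0)
    (hind : ∀ y : ι → ℝ, (∀ i, i ∉ fr x → y i = 0) → ∑ i, y i • v i = 0 → ∀ i, y i = 0) :
    (fr x).card = Module.finrank ℝ E ∧ ‖ip v x‖ < 1 / 2 ∧
    ∀ j, j ∉ fr x → ∃ i ∈ fr x, ∃ τ : ℝ, (τ = 1 ∨ τ = -1) ∧
      ‖ip v x - x j • v j + τ • v i‖ < 1 / 2 := by
  have hle : (fr x).card ≤ Module.finrank ℝ E := by
    by_contra hc
    push_neg at hc
    obtain ⟨y, hy, hys, i, hi⟩ := dep_on v (fr x) hc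
    exact hi (hind y hy hys i)
  obtain ⟨hcard, hw⟩ := stageA_point v hv _ hb x hx hs hle
  refine ⟨hcard, hw, fun j hj => ?_⟩
  have hxj : |x j| = 1 := le_antisymm (hx j) (not_lt.mp (fun h => hj ((mem_fr x j).mpr h)))
  have hxj0 : x j ≠ 0 := by
    intro h; rw [h, abs_zero] at hxj; exact zero_ne_one hxj
  -- the direction
  obtain ⟨y, hy, hys, i0, hi0⟩ := dep_on v (insert j (fr x))
    (by rw [card_insert_of_notMem hj, hcard]; omega)
  have hyj : y j ≠ 0 := by
    intro h0
    apply hi0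
    refine hind y (fun i hi => ?_) hys i0
    by_cases h : i = j
    · rw [h]; exact h0
    · exact hy i (by simp [h, hi])
  set z : ι → ℝ := fun i => -(x j / y j) * y i with hz
  have hzj : z j = - x j := by simp only [hz]; field_simp
  have hzs : ∑ i, z i • v i = 0 := by
    simp only [hz, mul_smul]
    rw [← smul_sum, hys, smul_zero]
  have hz0 : ∀ i, i ∉ insert j (fr x) → z i = 0 := by
    intro i hi; simp only [hz]; rw [hy i hi, mul_zero]
  have hzmv : ∀ i, z i ≠ 0 → |x i| < 1 ∨ z i = - x i := by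
    intro i hi
    by_cases h : i = j
    · right; rw [h]; exact hzj
    · left
      rw [← mem_fr]
      by_contra hc
      exact hi (hz0 i (by simp [h, hc]))
  obtain ⟨t, ht, hle', i, hi, hhit⟩ := move x z hx hzmv ⟨j, by rw [hzj]; simpa using hxj0⟩
  set x' : ι → ℝ := fun i => x i + t * z i with hx'
  have hs' : ∑ i, x' i • v i = 0 := by
    simp only [hx', add_smul, mul_smul]
    rw [sum_add_distrib, ← smul_sum, hs, hzs]
    simp
  have hiF : i ∈ insert j (fr x) := by
    by_contra hc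
    exact hi (hz0 i hc)
  have hsub : fr x' ⊆ (insert j (fr x)).erase i := by
    intro l hl
    rw [mem_fr] at hl
    rw [mem_erase]
    refine ⟨?_, ?_⟩
    · rintro rfl
      linarith
    · by_contra hc
      simp only [hx'] at hl
      rw [hz0 l hc, mul_zero, add_zero] at hl
      exact hc (mem_insert_of_mem ((mem_fr x l).mpr hl))
  have hce : ((insert j (fr x)).erase i).card = Module.finrank ℝ E := by
    rw [card_erase_of_mem hiF, card_insert_of_notMem hj, hcard]; simp
  obtain ⟨hcard', hw'⟩ := stageA_point v hv _ hb x' hle' hs' (by rw [← hce]; exact card_le_card hsub)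
  have heq : fr x' = (insert j (fr x)).erase i :=
    eq_of_subset_of_card_le hsub (by rw [hce, hcard'])
  have hip : ip v x' = ip v x - x j • v j + x' i • v i := by
    have h1 : ∀ l, (if |x' l| < 1 then 0 else x' l) • v l =
        (if |x l| < 1 then 0 else x l) • v l - (if l = j then x j else 0) • v l
          + (if l = i then x' i else 0) • v l := by
      intro l
      rw [← sub_smul, ← add_smul]
      congr 1
      have m1 : |x' l| < 1 ↔ l ≠ i ∧ (l = j ∨ |x l| < 1) := by
        rw [← mem_fr x', heq, mem_erase, mem_insert, mem_fr]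
      have m2 : |x j| < 1 ↔ False := by
        rw [hxj]; simp
      by_cases hli : l = i
      · have a1 : ¬ |x' l| < 1 := fun h => (m1.mp h).1 hli
        rw [if_neg a1, if_pos hli]
        by_cases hlj : l = j
        · have a2 : ¬ |x l| < 1 := by rw [hlj, m2]; exact id
          rw [if_neg a2, if_pos hlj, ← hli, hlj]; ring
        · have a2 : |x l| < 1 := by
            rw [mem_insert] at hiF
            rcases hiF with h | h
            · exact absurd (hli.trans h) hlj
            · rw [hli]; exact (mem_fr x i).mp h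
          rw [if_pos a2, if_neg hlj, ← hli]; ring
      · rw [if_neg hli]
        by_cases hlj : l = j
        · have a1 : |x' l| < 1 := m1.mpr ⟨hli, Or.inl hlj⟩
          have a2 : ¬ |x l| < 1 := by rw [hlj, m2]; exact id
          rw [if_pos a1, if_neg a2, if_pos hlj, hlj]; ring
        · by_cases hlf : |x l| < 1
          · have a1 : |x' l| < 1 := m1.mpr ⟨hli, Or.inr hlf⟩
            rw [if_pos a1, if_pos hlf, if_neg hlj]; ring
          · have a1 : ¬ |x' l| < 1 := by
              intro h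
              rcases (m1.mp h).2 with h2 | h2
              · exact hlj h2
              · exact hlf h2
            rw [if_neg a1, if_neg hlf, if_neg hlj]
            have : z l = 0 := hz0 l (by simp [hlj, mem_fr, hlf])
            simp only [hx']
            rw [this]; ring
    unfold ip
    simp_rw [h1]
    rw [sum_add_distrib, sum_sub_distrib]
    simp only [ite_smul, zero_smul, sum_ite_eq', mem_univ, if_true]
  have hτ : x' i = 1 ∨ x' i = -1 := abs_one_or hhit
  by_cases hij : i = j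
  · exfalso
    have h1 : x' i = - x j := by
      have h2 : x' i = x j * (1 - t) := by
        simp only [hx']
        rw [hij, hzj]; ring
      have h3 : |1 - t| = 1 := by
        have := hhit
        change |x' i| = 1 at this
        rw [h2, abs_mul, hxj, one_mul] at this
        exact this
      rcases abs_one_or h3 with h4 | h4
      · linarith
      · rw [h2, h4]; ring
    rw [hip, h1, hij] at hw'
    have h5 : (2 : ℝ) ≤ ‖ip v x‖ + ‖ip v x - x j • v j + (-x j) • v j‖ := by
      have h6 : (2 * x j) • v j = ip v x - (ip v x - x j • v j + (-x j) • v j) := by module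
      have h7 : ‖(2 * x j) • v j‖ = 2 := by
        rw [norm_smul, hv, Real.norm_eq_abs, abs_mul, hxj]; norm_num
      rw [← h7, h6]
      exact norm_sub_le _ _
    linarith
  · refine ⟨i, ?_, x' i, hτ, ?_⟩
    · rw [mem_insert] at hiF
      exact hiF.resolve_left hij
    · rw [← hip]; exact hw'

end Pool.Agent.Q268.BV
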