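import Mathlib
import Pool.Agent.Q268.BV.StageA

set_option autoImplicit false

namespace Pool.Agent.Q268.BV

open Finset
open scoped InnerProductSpace

lemma arith_B (R σ D : ℝ) (hR : 0 ≤ R) (hσ : 0 ≤ σ) (hD : 0 ≤ D)
    (h1 : D + σ * (1 - D) < 1 / 2) (h3 : 2 * R ^ 2 ≤ σ * (R + 1 / 2 - D) ^ 2)
    (hD2 : D < 1 / 2) (h4 : 1 / 2 < R + D) : False := by
  have hRpos : 0 < R := by linarith
  have h5 : (R + 1 / 2 - D) ^ 2 ≤ (2 * R) ^ 2 := by
    apply pow_le_pow_left₀ (by linarith) (by linarith)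
  have h6 : σ * (R + 1 / 2 - D) ^ 2 ≤ σ * (2 * R) ^ 2 := mul_le_mul_of_nonneg_left h5 hσ
  have h7 : 1 / 2 ≤ σ := by
    by_contra hc
    push_neg at hc
    have h8 : σ * (2 * R) ^ 2 < 1 / 2 * (2 * R) ^ 2 := mul_lt_mul_of_pos_right hc (by positivity)
    nlinarith
  nlinarith

variable {E : Type*} [NormedAddCommGroup E] [InnerProductSpace ℝ E]
variable {μ κ : Type*} [Fintype μ] [Fintype κ] [DecidableEq μ] [DecidableEq κ]

/-- the families of pairs and single vectors, all signed sums -/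
def LowPair (a b : μ → E) (u : κ → E) (B : ℝ) : Prop :=
  ∀ (α β : μ → ℝ) (υ : κ → ℝ), (∀ s, α s = 1 ∨ α s = -1) → (∀ s, β s = 1 ∨ β s = -1) →
    (∀ l, υ l = 1 ∨ υ l = -1) →
    B < ‖∑ s, α s • a s + ∑ s, β s • b s + ∑ l, υ l • u l‖ ^ 2

/-- the test of splitting the pair `s0` -/
lemma split_test [FiniteDimensional ℝ E] (a b : μ → E) (u : κ → E) (ha : ∀ s, ‖a s‖ = 1)
    (hb : ∀ s, ‖b s‖ = 1) (B : ℝ) (hlow : LowPair a b u B)
    (x : μ ⊕ κ → ℝ) (hx : ∀ i, |x i| ≤ 1) (s0 : μ) (hs0 : Sum.inl s0 ∈ fr x)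
    (hc1 : ∀ i, ‖(Sum.elim (fun s => a s - b s) u : μ ⊕ κ → E) i‖ ≤ 1)
    (hcard : (fr x).card = Module.finrank ℝ E) :
    B < ‖ip (Sum.elim (fun s => a s - b s) u) x‖ ^ 2 + Module.finrank ℝ E - 1
      + ∑ i ∈ fr x, (1 - ‖(Sum.elim (fun s => a s - b s) u : μ ⊕ κ → E) i‖ ^ 2) := by
  set c : μ ⊕ κ → E := Sum.elim (fun s => a s - b s) u with hc
  set d := Module.finrank ℝ E with hd
  set w := ip c x with hw
  set h : Option (μ ⊕ κ) → E := fun o => o.elim (a s0)
    (fun i => if i = Sum.inl s0 then b s0 else if |x i| < 1 then c i else 0) with hh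
  set T : Finset (Option (μ ⊕ κ)) := insert none ((fr x).map Function.Embedding.some) with hT
  have hTcard : d < T.card := by
    rw [hT, card_insert_of_notMem (by simp), card_map, hcard]; omega
  obtain ⟨y, hy0, hys, hyne⟩ := dep_on h T hTcard
  set D' := ∑ i ∈ (fr x).erase (Sum.inl s0), (1 - ‖c i‖ ^ 2) with hD'
  have hδ : ∀ i, 0 ≤ 1 - ‖c i‖ ^ 2 := by
    intro i
    have h1 := hc1 i
    have h2 : 0 ≤ ‖c i‖ := norm_nonneg _
    nlinarith
  have hD0 : 0 ≤ D' := sum_nonneg (fun i _ => hδ i)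
  have hx1 : |x (Sum.inl s0)| < 1 := (mem_fr _ _).mp hs0
  have hbase : ∀ e : Option (μ ⊕ κ) → Bool, B < ‖w + ∑ o, sg (e o) • h o‖ ^ 2 := by
    intro e
    set γ : μ ⊕ κ → ℝ := fun i => if |x i| < 1 then sg (e (some i)) else x i with hγ
    have hγs : ∀ i, γ i = 1 ∨ γ i = -1 := by
      intro i
      by_cases h1 : |x i| < 1
      · simp only [hγ, h1, if_true]; exact sg_or _
      · simp only [hγ, h1, if_false]
        exact abs_one_or (le_antisymm (hx i) (not_lt.mp h1))
    have key := hlow (fun s => if s = s0 then sg (e none) else γ (Sum.inl s))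
      (fun s => if s = s0 then sg (e (some (Sum.inl s0))) else - γ (Sum.inl s))
      (fun l => γ (Sum.inr l)) ?_ ?_ ?_
    · have heq : ∑ s, (if s = s0 then sg (e none) else γ (Sum.inl s)) • a s +
          ∑ s, (if s = s0 then sg (e (some (Sum.inl s0))) else - γ (Sum.inl s)) • b s +
          ∑ l, γ (Sum.inr l) • u l = w + ∑ o, sg (e o) • h o := by
        rw [Fintype.sum_option]
        have h1 : w + (sg (e none) • h none + ∑ i, sg (e (some i)) • h (some i)) =
            sg (e none) • h none + ∑ i, ((if |x i| < 1 then 0 else x i) • c i +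
              sg (e (some i)) • h (some i)) := by
          rw [sum_add_distrib, hw]
          unfold ip
          abel
        rw [h1, Fintype.sum_sum_type]
        have h2 : ∀ l : κ, (if |x (Sum.inr l)| < 1 then 0 else x (Sum.inr l)) • c (Sum.inr l) +
              sg (e (some (Sum.inr l))) • h (some (Sum.inr l)) = γ (Sum.inr l) • u l := by
          intro l
          simp only [hh, hγ, hc, Option.elim, Sum.elim_inr, reduceCtorEq, if_false]
          split_ifs <;> simp
        have h3 : ∀ s : μ, (if |x (Sum.inl s)| < 1 then 0 else x (Sum.inl s)) • c (Sum.inl s) +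
              sg (e (some (Sum.inl s))) • h (some (Sum.inl s)) +
              (if s = s0 then sg (e none) • a s0 else 0) =
            (if s = s0 then sg (e none) else γ (Sum.inl s)) • a s +
            (if s = s0 then sg (e (some (Sum.inl s0))) else - γ (Sum.inl s)) • b s := by
          intro s
          by_cases hs : s = s0
          · subst hs
            simp only [hh, Option.elim, if_true, hx1, zero_smul, zero_add]
            abel
          · simp only [hh, hγ, hc, Option.elim, Sum.elim_inl, Sum.inl.injEq, hs, if_false]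
            split_ifs
            · simp only [zero_smul, zero_add, add_zero]; module
            · simp only [smul_zero, add_zero]; module
        simp_rw [h2]
        rw [← sum_add_distrib, ← sum_congr rfl (fun s _ => h3 s), sum_add_distrib]
        simp only [sum_ite_eq', mem_univ, if_true]
        have h4 : h none = a s0 := rfl
        rw [h4]
        abel
      rw [heq] at key
      exact key
    · intro s
      by_cases hs : s = s0
      · simp only [hs, if_true]; exact sg_or _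
      · simp only [hs, if_false]; exact hγs _
    · intro s
      by_cases hs : s = s0
      · simp only [hs, if_true]; exact sg_or _
      · simp only [hs, if_false]
        rcases hγs (Sum.inl s) with h | h
        · right; rw [h]
        · left; rw [h]; norm_num
    · intro l; exact hγs _
  have hwt := weighted_base w h 0 y (by rw [zero_smul, zero_add]; exact hys) (Or.inr hyne) B hbase
  -- sum of squared norms
  have hnone : ‖h none‖ ^ 2 = 1 := by
    have : h none = a s0 := rfl
    rw [this, ha]; norm_num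
  have hinl : ‖h (some (Sum.inl s0))‖ ^ 2 = 1 := by
    have : h (some (Sum.inl s0)) = b s0 := by simp [hh]
    rw [this, hb]; norm_num
  have hother : ∀ i ∈ (fr x).erase (Sum.inl s0), h (some i) = c i := by
    intro i hi
    rw [mem_erase, mem_fr] at hi
    simp only [hh, Option.elim, hi.1, hi.2, if_false, if_true]
  have hout : ∀ i, i ∉ fr x → h (some i) = 0 := by
    intro i hi
    have h1 : i ≠ Sum.inl s0 := by rintro rfl; exact hi hs0
    have h2 : ¬ |x i| < 1 := fun h => hi ((mem_fr x i).mpr h)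
    simp only [hh, Option.elim, h1, h2, if_false]
  have hN : ∑ o, ‖h o‖ ^ 2 = d + 1 - D' := by
    rw [Fintype.sum_option, hnone]
    have h1 : ∑ i, ‖h (some i)‖ ^ 2 = ∑ i ∈ fr x, ‖h (some i)‖ ^ 2 := by
      symm
      apply Finset.sum_subset (Finset.subset_univ _)
      intro i _ hi
      rw [hout i hi]; simp
    rw [h1, ← Finset.add_sum_erase _ _ hs0, hinl]
    have h2 : ∑ i ∈ (fr x).erase (Sum.inl s0), ‖h (some i)‖ ^ 2 =
        ∑ i ∈ (fr x).erase (Sum.inl s0), ‖c i‖ ^ 2 :=
      sum_congr rfl (fun i hi => by rw [hother i hi])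
    have h3 : D' = ((fr x).erase (Sum.inl s0)).card -
        ∑ i ∈ (fr x).erase (Sum.inl s0), ‖c i‖ ^ 2 := by
      rw [hD', sum_sub_distrib]; simp
    have h4 : (((fr x).erase (Sum.inl s0)).card : ℝ) = d - 1 := by
      rw [card_erase_of_mem hs0, hcard, Nat.cast_sub]
      · simp
      · rw [← hcard]; exact card_pos.mpr ⟨_, hs0⟩
    rw [h2]
    rw [h4] at h3
    linarith
  have hlb : ∀ o, y o ^ 2 * (1 - D') ≤ y o ^ 2 * ‖h o‖ ^ 2 := by
    intro o
    by_cases ho : o ∈ T
    · apply mul_le_mul_of_nonneg_left _ (sq_nonneg _)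
      rcases o with _ | i
      · rw [hnone]; linarith
      · have hi : i ∈ fr x := by
          rw [hT, mem_insert, mem_map] at ho
          rcases ho with h1 | ⟨j, hj, hji⟩
          · exact absurd h1 (by simp)
          · have : j = i := by simpa using hji
            rw [← this]; exact hj
        by_cases his : i = Sum.inl s0
        · rw [his, hinl]; linarith
        · have hie : i ∈ (fr x).erase (Sum.inl s0) := mem_erase.mpr ⟨his, hi⟩
          rw [hother i hie]
          have : 1 - ‖c i‖ ^ 2 ≤ D' := single_le_sum (f := fun i => 1 - ‖c i‖ ^ 2)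
            (fun j _ => hδ j) hie
          linarith
    · rw [hy0 o ho]; simp
  have hlbs := sum_le_sum (fun o (_ : o ∈ (univ : Finset (Option (μ ⊕ κ)))) => hlb o)
  rw [← sum_mul] at hlbs
  rw [hN] at hwt
  have hYpos : 0 < ∑ o, y o ^ 2 := by
    obtain ⟨o, ho⟩ := hyne
    exact sum_pos' (fun i _ => sq_nonneg _) ⟨o, mem_univ _, by positivity⟩
  set Y := ∑ o, y o ^ 2 with hY
  have hfin : B * Y < (‖w‖ ^ 2 + d - 1 + D') * Y := by
    have e1 : (0:ℝ) ^ 2 = 0 := by norm_num
    rw [e1] at hwt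
    simp only [zero_add, zero_mul] at hwt
    nlinarith
  have hfin2 : B < ‖w‖ ^ 2 + d - 1 + D' := lt_of_mul_lt_mul_right hfin hYpos.le
  have hDD : D' ≤ ∑ i ∈ fr x, (1 - ‖c i‖ ^ 2) :=
    sum_le_sum_of_subset_of_nonneg (erase_subset _ _) (fun i _ _ => hδ i)
  linarith

lemma stageB [FiniteDimensional ℝ E] (a b : μ → E) (u : κ → E) (ha : ∀ s, ‖a s‖ = 1)
    (hb : ∀ s, ‖b s‖ = 1) (hu : ∀ l, ‖u l‖ = 1) (hab : ∀ s, ‖a s - b s‖ ≤ 1)
    (hκ : Fintype.card κ + 1 ≤ Module.finrank ℝ E) :
    ¬ LowPair a b u ((Module.finrank ℝ E : ℝ) - 1 / 2) := by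
  intro hlow
  set c : μ ⊕ κ → E := Sum.elim (fun s => a s - b s) u with hc
  set d := Module.finrank ℝ E with hd
  have hc1 : ∀ i, ‖c i‖ ≤ 1 := by
    rintro (s | l)
    · exact hab s
    · exact (hu l).le
  have hlowc : Low c ((d : ℝ) - 1 / 2) := by
    intro s hs
    have h := hlow (fun i => s (Sum.inl i)) (fun i => - s (Sum.inl i)) (fun l => s (Sum.inr l))
      (fun i => hs _) (fun i => ?_) (fun l => hs _)
    · have h1 : ∑ i, s (Sum.inl i) • a i + ∑ i, (- s (Sum.inl i)) • b i +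
          ∑ l, s (Sum.inr l) • u l = ∑ i, s i • c i := by
        rw [Fintype.sum_sum_type, ← sum_add_distrib]
        congr 1
        refine sum_congr rfl (fun i _ => ?_)
        simp only [hc, Sum.elim_inl]
        module
      rw [h1] at h
      exact h
    · rcases hs (Sum.inl i) with h | h
      · right; rw [h]
      · left; rw [h]; norm_num
  obtain ⟨x, hx, hs, hind⟩ := exists_basic c
  have hle : (fr x).card ≤ d := by
    by_contra hcc
    push_neg at hcc
    obtain ⟨y, hy, hys, i, hi⟩ := dep_on c (fr x) hcc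
    exact hi (hind y hy hys i)
  obtain ⟨t1, t2, t3, t4⟩ := tests c x hx hs _ hlowc
  have hδ : ∀ i, 0 ≤ 1 - ‖c i‖ ^ 2 := by
    intro i
    have h1 := hc1 i
    have h2 : 0 ≤ ‖c i‖ := norm_nonneg _
    nlinarith
  have hx2 : ∀ i, 0 ≤ 1 - x i ^ 2 := by
    intro i
    obtain ⟨h1, h2⟩ := abs_le.mp (hx i)
    nlinarith
  have hcd : (fr x).card = d := by
    by_contra hne
    have h1 : (fr x).card + 1 ≤ d := by omega
    have h2 : ((fr x).card : ℝ) + 1 ≤ d := by exact_mod_cast h1
    have h3 : ∑ i ∈ fr x, (1 - x i ^ 2) * ‖c i‖ ^ 2 ≤ ∑ i ∈ fr x, (1 : ℝ) := by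
      refine sum_le_sum (fun i _ => ?_)
      have a1 := hδ i
      have a2 := hx2 i
      have a3 : 0 ≤ x i ^ 2 := sq_nonneg _
      have a4 : 0 ≤ ‖c i‖ ^ 2 := sq_nonneg _
      nlinarith
    rw [sum_const, nsmul_eq_mul, mul_one] at h3
    linarith
  have hexs : ∃ s0 : μ, Sum.inl s0 ∈ fr x := by
    by_contra hno
    push_neg at hno
    have hsub : fr x ⊆ (univ : Finset κ).map Function.Embedding.inr := by
      intro i hi
      rcases i with s | l
      · exact absurd hi (hno s)
      · simp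
    have := card_le_card hsub
    rw [card_map, card_univ, hcd] at this
    omega
  obtain ⟨s0, hs0⟩ := hexs
  have h4 := split_test a b u ha hb _ hlow x hx s0 hs0 hc1 hcd
  set D := ∑ i ∈ fr x, (1 - ‖c i‖ ^ 2) with hD
  set σ := ∑ i ∈ fr x, x i ^ 2 with hσ
  set R := ‖ip c x‖ ^ 2 with hR
  have hR0 : 0 ≤ R := by rw [hR]; positivity
  have hD0 : 0 ≤ D := sum_nonneg (fun i _ => hδ i)
  have hσ0 : 0 ≤ σ := sum_nonneg (fun i _ => sq_nonneg _)
  have hN : ∑ i ∈ fr x, ‖c i‖ ^ 2 = d - D := by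
    rw [hD, sum_sub_distrib]
    simp [hcd]
  have hb1 : ∑ i ∈ fr x, (1 - x i ^ 2) * ‖c i‖ ^ 2 ≤ d - D := by
    rw [← hN]
    refine sum_le_sum (fun i _ => ?_)
    have a3 : 0 ≤ x i ^ 2 := sq_nonneg _
    have a4 : 0 ≤ ‖c i‖ ^ 2 := sq_nonneg _
    nlinarith
  have hb2 : ∑ i ∈ fr x, (1 - x i ^ 2) * ‖c i‖ ^ 2 ≤ d - D - σ + σ * D := by
    have e1 : ∑ i ∈ fr x, (1 - x i ^ 2) * ‖c i‖ ^ 2 =
        ∑ i ∈ fr x, ‖c i‖ ^ 2 - σ + ∑ i ∈ fr x, x i ^ 2 * (1 - ‖c i‖ ^ 2) := by
      rw [hσ, ← sum_sub_distrib, ← sum_add_distrib]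
      refine sum_congr rfl (fun i _ => ?_)
      ring
    have e2 : ∑ i ∈ fr x, x i ^ 2 * (1 - ‖c i‖ ^ 2) ≤ σ * D := by
      rw [hD, mul_sum]
      refine sum_le_sum (fun i hi => ?_)
      exact mul_le_mul_of_nonneg_right
        (single_le_sum (f := fun i => x i ^ 2) (fun j _ => sq_nonneg _) hi) (hδ i)
    rw [e1, hN]
    linarith
  rw [hN] at t4
  have e5 : R + (d - D) - (d - 1 / 2) = R + 1 / 2 - D := by ring
  rw [e5] at t4
  exact arith_B R σ D hR0 hσ0 hD0 (by nlinarith) t4 (by linarith) (by linarith)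

end Pool.Agent.Q268.BV
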