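import Mathlib
import Pool.Agent.Q268.BV.StageB

set_option autoImplicit false

namespace Pool.Agent.Q268.BV

open Finset
open scoped InnerProductSpace

variable {ι : Type*} [Fintype ι] [DecidableEq ι]
variable {E : Type*} [NormedAddCommGroup E] [InnerProductSpace ℝ E]

/-- the signed sums of the `v i`, `i ∈ S`, contain those of `m` close pairs and `q` vectors -/
def Split (v : ι → E) (S : Finset ι) (m q : ℕ) : Prop :=
  ∃ (a b : Fin m → E) (u : Fin q → E),
    (∀ s, ‖a s‖ = 1) ∧ (∀ s, ‖b s‖ = 1) ∧ (∀ l, ‖u l‖ = 1) ∧ (∀ s, ‖a s - b s‖ ≤ 1) ∧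
    ∀ (α β : Fin m → ℝ) (υ : Fin q → ℝ), (∀ s, α s = 1 ∨ α s = -1) →
      (∀ s, β s = 1 ∨ β s = -1) → (∀ l, υ l = 1 ∨ υ l = -1) →
      ∃ η : ι → ℝ, (∀ i, η i = 1 ∨ η i = -1) ∧
        ∑ i ∈ S, η i • v i = ∑ s, α s • a s + ∑ s, β s • b s + ∑ l, υ l • u l

omit [Fintype ι] in
lemma split_zero (v : ι → E) (hv : ∀ i, ‖v i‖ = 1) (S : Finset ι) : Split v S 0 S.card := by
  refine ⟨Fin.elim0, Fin.elim0, fun l => v (S.equivFin.symm l), fun s => s.elim0, fun s => s.elim0,
    fun l => hv _, fun s => s.elim0, fun α β υ _ _ hυ => ?_⟩
  refine ⟨fun i => if h : i ∈ S then υ (S.equivFin ⟨i, h⟩) else 1, fun i => ?_, ?_⟩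
  · by_cases h : i ∈ S
    · simp only [h, dif_pos]; exact hυ _
    · simp only [h, dif_neg, not_false_eq_true]; left; trivial
  · rw [← Finset.sum_coe_sort S]
    simp only [univ_eq_empty, sum_empty, zero_add]
    refine Fintype.sum_equiv S.equivFin _ _ (fun i => ?_)
    simp

omit [Fintype ι] in
lemma split_succ (v : ι → E) (hv : ∀ i, ‖v i‖ = 1) (S : Finset ι) (i j : ι) (m q : ℕ)
    (hin : i ∉ insert j S) (hjn : j ∉ S) (ei ej : ℝ) (hei : ei = 1 ∨ ei = -1)
    (hej : ej = 1 ∨ ej = -1) (hc : ‖ei • v i - ej • v j‖ ≤ 1) (h : Split v S m q) :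
    Split v (insert i (insert j S)) (m + 1) q := by
  obtain ⟨a, b, u, ha, hb, hu, hab, hs⟩ := h
  have n1 : ‖ei • v i‖ = 1 := by
    rw [norm_smul, hv, Real.norm_eq_abs]
    rcases hei with h | h <;> rw [h] <;> norm_num
  have n2 : ‖ej • v j‖ = 1 := by
    rw [norm_smul, hv, Real.norm_eq_abs]
    rcases hej with h | h <;> rw [h] <;> norm_num
  have hij : i ≠ j := fun h => hin (by simp [h])
  have hiS : i ∉ S := fun h => hin (mem_insert_of_mem h)
  refine ⟨Fin.cons (ei • v i) a, Fin.cons (ej • v j) b, u, ?_, ?_, hu, ?_, ?_⟩
  · intro s; refine Fin.cases ?_ (fun s => ?_) s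
    · simpa using n1
    · simpa using ha s
  · intro s; refine Fin.cases ?_ (fun s => ?_) s
    · simpa using n2
    · simpa using hb s
  · intro s; refine Fin.cases ?_ (fun s => ?_) s
    · simpa using hc
    · simpa using hab s
  · intro α β υ hα hβ hυ
    obtain ⟨η, hη, hsum⟩ := hs (fun s => α s.succ) (fun s => β s.succ) υ (fun s => hα _)
      (fun s => hβ _) hυ
    refine ⟨Function.update (Function.update η i (α 0 * ei)) j (β 0 * ej), fun l => ?_, ?_⟩
    · by_cases h2 : l = j
      · subst h2; rw [Function.update_self]
        rcases hβ 0 with h3 | h3 <;> rcases hej with h4 | h4 <;> rw [h3, h4] <;> norm_num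
      · rw [Function.update_of_ne h2]
        by_cases h3 : l = i
        · subst h3; rw [Function.update_self]
          rcases hα 0 with h3 | h3 <;> rcases hei with h4 | h4 <;> rw [h3, h4] <;> norm_num
        · rw [Function.update_of_ne h3]; exact hη l
    · rw [sum_insert hin, sum_insert hjn, Function.update_self, Function.update_of_ne hij,
        Function.update_self]
      have h1 : ∑ l ∈ S, (Function.update (Function.update η i (α 0 * ei)) j (β 0 * ej)) l • v l =
          ∑ l ∈ S, η l • v l := by
        refine sum_congr rfl (fun l hl => ?_)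
        have h2 : l ≠ j := fun h => hjn (h ▸ hl)
        have h3 : l ≠ i := fun h => hiS (h ▸ hl)
        rw [Function.update_of_ne h2, Function.update_of_ne h3]
      rw [h1, hsum, Fin.sum_univ_succ, Fin.sum_univ_succ]
      simp only [Fin.cons_zero, Fin.cons_succ, smul_smul]
      abel

lemma pairing (v : ι → E) (hv : ∀ i, ‖v i‖ = 1) (ε : ι → ℝ) (hε : ∀ i, ε i = 1 ∨ ε i = -1)
    (col : ι → ι × Bool) (F : Finset ι) (hcol : ∀ l, (col l).1 ∈ F)
    (hclose : ∀ l l', col l = col l' → ‖ε l • v l - ε l' • v l'‖ ≤ 1)
    (hpar : Fintype.card ι % 2 ≠ F.card % 2)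
    (heven : ∀ i, Even (univ.filter (fun l => col l = (i, true))).card) :
    ∃ m q, q + 1 ≤ F.card ∧ Split v univ m q := by
  have key : ∀ N : ℕ, ∀ S : Finset ι, S.card = N → S.card % 2 = Fintype.card ι % 2 →
      (∀ i, Even (S.filter (fun l => col l = (i, true))).card) →
      ∃ m q, q + 1 ≤ F.card ∧ Split v S m q := by
    intro N
    induction N using Nat.strong_induction_on with
    | _ N ih =>
      intro S hS hp he
      by_cases hx : ∃ i ∈ S, ∃ j ∈ S, i ≠ j ∧ col i = col j
      · obtain ⟨i, hi, j, hj, hij, hc⟩ := hx
        set S' := (S.erase i).erase j with hS'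
        have hj' : j ∈ S.erase i := mem_erase.mpr ⟨Ne.symm hij, hj⟩
        have hjn : j ∉ S' := by simp [hS']
        have hSe : S.erase i = insert j S' := by rw [hS', insert_erase hj']
        have hin : i ∉ insert j S' := by rw [← hSe]; simp
        have hSS : S = insert i (insert j S') := by rw [← hSe, insert_erase hi]
        have hcd : S.card = S'.card + 2 := by
          rw [hSS, card_insert_of_notMem hin, card_insert_of_notMem hjn]
        obtain ⟨m, q, hq, hsp⟩ := ih S'.card (by omega) S' rfl (by omega) (fun l => by
          have h1 := he l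
          rw [hSS, filter_insert, filter_insert] at h1
          by_cases hPi : col i = (l, true)
          · have hPj : col j = (l, true) := by rw [← hc]; exact hPi
            rw [if_pos hPi, if_pos hPj, card_insert_of_notMem, card_insert_of_notMem] at h1
            · rw [Nat.even_iff] at h1 ⊢
              omega
            · simp [hjn]
            · intro h3
              rw [mem_insert, mem_filter] at h3
              exact hin (mem_insert.mpr (h3.imp id (fun h => h.1)))
          · have hPj : ¬ col j = (l, true) := by rw [← hc]; exact hPi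
            rw [if_neg hPi, if_neg hPj] at h1
            exact h1)
        refine ⟨m + 1, q, hq, ?_⟩
        rw [hSS]
        exact split_succ v hv S' i j m q hin hjn (ε i) (ε j) (hε i) (hε j) (hclose i j hc) hsp
      · push_neg at hx
        have hfalse : ∀ l ∈ S, (col l).2 = false := by
          intro l hl
          by_contra hne
          have htrue : (col l).2 = true := by simpa using hne
          have h1 : S.filter (fun k => col k = ((col l).1, true)) = {l} := by
            ext k
            rw [mem_filter, mem_singleton]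
            constructor
            · rintro ⟨hk, h2⟩
              by_contra hkl
              apply hx k hk l hl hkl
              rw [h2, ← htrue]
            · rintro rfl
              exact ⟨hl, by rw [← htrue]⟩
          have h2 := he (col l).1
          rw [h1, card_singleton] at h2
          exact absurd h2 (by decide)
        have hle : S.card ≤ F.card := by
          refine card_le_card_of_injOn (fun l => (col l).1) (fun l _ => hcol l) ?_
          intro l hl l' hl' h
          by_contra hne
          apply hx l hl l' hl' hne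
          refine Prod.ext h ?_
          rw [hfalse l hl, hfalse l' hl']
        refine ⟨0, S.card, ?_, split_zero v hv S⟩
        rcases Nat.lt_or_ge S.card F.card with h | h
        · omega
        · exfalso
          apply hpar
          rw [← hp]
          have : S.card = F.card := le_antisymm hle h
          rw [this]
  exact key _ univ rfl (by rw [card_univ]) heven

end Pool.Agent.Q268.BV
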