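import Mathlib
import Pool.Agent.Q268.BV.Pairing

set_option autoImplicit false

namespace Pool.Agent.Q268.BV

open Finset
open scoped InnerProductSpace

variable {ι : Type*} [Fintype ι] [DecidableEq ι]
variable {E : Type*} [NormedAddCommGroup E] [InnerProductSpace ℝ E]

theorem half_gain [FiniteDimensional ℝ E] (v : ι → E) (hv : ∀ i, ‖v i‖ = 1)
    (hpar : Fintype.card ι % 2 ≠ Module.finrank ℝ E % 2) :
    ¬ Low v ((Module.finrank ℝ E : ℝ) - 1 / 2) := by
  intro hb
  obtain ⟨x, hx, hs, hind⟩ := exists_basic v
  obtain ⟨hcard, hw, hedge⟩ := edge v hv hb x hx hs hind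
  set w := ip v x with hwdef
  have hex : ∀ j : ι, ∃ c : ι × Bool, j ∉ fr x →
      (c.1 ∈ fr x ∧ ‖w - x j • v j + sg c.2 • v c.1‖ < 1 / 2) := by
    intro j
    by_cases hj : j ∈ fr x
    · exact ⟨(j, true), fun h => absurd hj h⟩
    · obtain ⟨i, hi, τ, hτ, h⟩ := hedge j hj
      rcases hτ with h1 | h1
      · refine ⟨(i, true), fun _ => ⟨hi, ?_⟩⟩
        have h2 : sg true = τ := by rw [h1]; simp [sg]
        simp only [h2]
        exact h
      · refine ⟨(i, false), fun _ => ⟨hi, ?_⟩⟩
        have h2 : sg false = τ := by rw [h1]; simp [sg]
        simp only [h2]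
        exact h
  choose f hf using hex
  set N : ι → ℕ := fun i => (univ.filter (fun l => l ∉ fr x ∧ f l = (i, true))).card with hN
  classical
  set col : ι → ι × Bool := fun l => if l ∈ fr x then (l, decide (¬ Even (N l))) else f l with hcol
  set ε : ι → ℝ := fun l => if l ∈ fr x then sg (col l).2 else x l with hε
  have hεs : ∀ l, ε l = 1 ∨ ε l = -1 := by
    intro l
    by_cases hl : l ∈ fr x
    · simp only [hε, hl, if_true]; exact sg_or _
    · simp only [hε, hl, if_false]
      exact abs_one_or (le_antisymm (hx l) (not_lt.mp (fun h => hl ((mem_fr x l).mpr h))))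
  have hmem : ∀ l, (col l).1 ∈ fr x := by
    intro l
    by_cases hl : l ∈ fr x
    · simp only [hcol, hl, if_true]
    · simp only [hcol, hl, if_false]
      exact (hf l hl).1
  have hnear : ∀ l, ‖w - ε l • v l + sg (col l).2 • v (col l).1‖ < 1 / 2 := by
    intro l
    by_cases hl : l ∈ fr x
    · have h1 : (col l).1 = l := by simp only [hcol, hl, if_true]
      have h2 : ε l = sg (col l).2 := by simp only [hε, hl, if_true]
      rw [h1, h2, sub_add_cancel]
      exact hw
    · have h1 : col l = f l := by simp only [hcol, hl, if_false]
      have h2 : ε l = x l := by simp only [hε, hl, if_false]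
      rw [h1, h2]
      exact (hf l hl).2
  have hclose : ∀ l l', col l = col l' → ‖ε l • v l - ε l' • v l'‖ ≤ 1 := by
    intro l l' h
    have h1 := hnear l
    have h2 := hnear l'
    rw [← h] at h2
    set p := sg (col l).2 • v (col l).1 with hp
    have h3 : ε l • v l - ε l' • v l' = (w - ε l' • v l' + p) - (w - ε l • v l + p) := by abel
    rw [h3]
    refine (norm_sub_le _ _).trans ?_
    linarith
  have heven : ∀ i, Even (univ.filter (fun l => col l = (i, true))).card := by
    intro i
    by_cases hi : i ∈ fr x
    · by_cases hNi : Even (N i)
      · have h1 : univ.filter (fun l => col l = (i, true)) =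
            univ.filter (fun l => l ∉ fr x ∧ f l = (i, true)) := by
          apply filter_congr
          intro l _
          by_cases hl : l ∈ fr x
          · simp only [hcol, hl, if_true, not_true, false_and, iff_false, Prod.mk.injEq, not_and]
            rintro rfl
            simpa using hNi
          · simp only [hcol, hl, if_false, not_false_eq_true, true_and]
        rw [h1]; exact hNi
      · have h1 : univ.filter (fun l => col l = (i, true)) =
            insert i (univ.filter (fun l => l ∉ fr x ∧ f l = (i, true))) := by
          ext l
          rw [mem_filter, mem_insert, mem_filter]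
          by_cases hl : l ∈ fr x
          · simp only [hcol, hl, if_true, not_true, false_and, and_false, or_false, mem_univ,
              true_and, Prod.mk.injEq]
            constructor
            · exact fun h => h.1
            · rintro rfl
              exact ⟨rfl, by simpa using hNi⟩
          · have hne : l ≠ i := fun h => hl (h ▸ hi)
            simp only [hcol, hl, hne, if_false, not_false_eq_true, true_and, mem_univ, false_or]
        rw [h1, card_insert_of_notMem (by simp [hi])]
        exact Nat.even_add_one.mpr hNi
    · have h1 : univ.filter (fun l => col l = (i, true)) = ∅ := by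
        rw [filter_eq_empty_iff]
        intro l _ h
        apply hi
        have := hmem l
        rw [h] at this
        exact this
      rw [h1]; simp
  obtain ⟨m, q, hq, a, b, u, ha, hb', hu, hab, hsplit⟩ :=
    pairing v hv ε hεs col (fr x) hmem hclose (by rw [hcard]; exact hpar) heven
  refine stageB a b u ha hb' hu hab (by rw [Fintype.card_fin, ← hcard]; exact hq) ?_
  intro α β υ hα hβ hυ
  obtain ⟨η, hη, hsum⟩ := hsplit α β υ hα hβ hυ
  have := hb η hη
  rw [hsum] at this
  exact this

end Pool.Agent.Q268.BV
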