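import Mathlib
import Pool.Agent.Q268.BV.Curve

set_option autoImplicit false

namespace Pool.Agent.Q268.BV

open Finset
open scoped InnerProductSpace

variable {E : Type*} [NormedAddCommGroup E] [InnerProductSpace ℝ E]

/-- the number of indices `k` with `v k = ± v i` -/
noncomputable def mult {n : ℕ} (v : Fin n → E) (i : Fin n) : ℕ :=
  Nat.card {k : Fin n // v k = v i ∨ v k = - v i}

/-- a signing of the vectors indexed by `S` with squared norm at most `b` -/
def Signs {n : ℕ} (v : Fin n → E) (b : ℝ) (S : Finset (Fin n)) : Prop :=
  ∃ η : Fin n → ℝ, (∀ i, η i = 1 ∨ η i = -1) ∧ ‖∑ i ∈ S, η i • v i‖ ^ 2 ≤ b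

lemma signs_of_sub {n : ℕ} (v : Fin n → E) (b : ℝ) (S : Finset (Fin n))
    (h : ∃ e : S → Bool, ‖∑ i : S, sg (e i) • v i‖ ^ 2 ≤ b) : Signs v b S := by
  obtain ⟨e, he⟩ := h
  refine ⟨fun i => if h : i ∈ S then sg (e ⟨i, h⟩) else 1, fun i => ?_, ?_⟩
  · by_cases hi : i ∈ S
    · simp only [hi, dif_pos]; exact sg_or _
    · simp only [hi, dif_neg, not_false_eq_true]; left; trivial
  · rw [← Finset.sum_coe_sort S]
    refine le_trans (le_of_eq ?_) he
    congr 2
    refine sum_congr rfl (fun i _ => ?_)
    simp

open Classical in
lemma reduce {n : ℕ} (v : Fin n → E) (b : ℝ)
    (hfin : ∀ S : Finset (Fin n), S.card % 2 = n % 2 →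
      (∀ i ∈ S, ∀ j ∈ S, i ≠ j → ¬ (v i = v j ∨ v i = - v j)) →
      (∀ i ∈ S, ¬ Even (mult v i)) → Signs v b S) : Signs v b univ := by
  have key : ∀ m : ℕ, ∀ S : Finset (Fin n), S.card = m → S.card % 2 = n % 2 →
      (∀ i ∈ S, (S.filter (fun k => v k = v i ∨ v k = - v i)).card % 2 = mult v i % 2) →
      Signs v b S := by
    intro m
    induction m using Nat.strong_induction_on with
    | _ m ih =>
      intro S hS hpar hm
      by_cases hp : ∃ i ∈ S, ∃ j ∈ S, i ≠ j ∧ (v i = v j ∨ v i = - v j)
      · obtain ⟨i, hi, j, hj, hij, hv⟩ := hp
        set S' := (S.erase i).erase j with hS'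
        have hj' : j ∈ S.erase i := mem_erase.mpr ⟨Ne.symm hij, hj⟩
        have hjn : j ∉ S' := by simp [hS']
        have hSe : S.erase i = insert j S' := by rw [hS', insert_erase hj']
        have hin : i ∉ insert j S' := by rw [← hSe]; simp
        have hSS : S = insert i (insert j S') := by rw [← hSe, insert_erase hi]
        have hc : S.card = S'.card + 2 := by
          rw [hSS, card_insert_of_notMem hin, card_insert_of_notMem hjn]
        have hrec : Signs v b S' := by
          refine ih S'.card (by omega) S' rfl (by omega) (fun l hl => ?_)
          have hlS : l ∈ S := by rw [hSS]; simp [hl]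
          rw [← hm l hlS, hSS, filter_insert, filter_insert]
          by_cases hPi : v i = v l ∨ v i = - v l
          · have hPj : v j = v l ∨ v j = - v l := by
              rcases hv with h | h
              · rw [← h]; exact hPi
              · have : v j = - v i := by rw [h, neg_neg]
                rw [this]
                rcases hPi with h2 | h2
                · right; rw [h2]
                · left; rw [h2, neg_neg]
            rw [if_pos hPi, if_pos hPj, card_insert_of_notMem, card_insert_of_notMem]
            · omega
            · simp [hjn]
            · intro h3
              rw [mem_insert, mem_filter] at h3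
              exact hin (mem_insert.mpr (h3.imp id (fun h => h.1)))
          · have hPj : ¬ (v j = v l ∨ v j = - v l) := by
              intro hPj
              apply hPi
              rcases hv with h | h
              · rw [h]; exact hPj
              · rw [h]
                rcases hPj with h2 | h2
                · right; rw [h2]
                · left; rw [h2, neg_neg]
            rw [if_neg hPi, if_neg hPj]
        obtain ⟨η, hη, hb⟩ := hrec
        have hsum : ∀ a : ℝ, ∑ l ∈ S, (Function.update (Function.update η i 1) j a) l • v l =
            ∑ l ∈ S', η l • v l + (v i + a • v j) := by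
          intro a
          rw [hSS, sum_insert hin, sum_insert hjn]
          have h1 : ∑ l ∈ S', (Function.update (Function.update η i 1) j a) l • v l =
              ∑ l ∈ S', η l • v l := by
            refine sum_congr rfl (fun l hl => ?_)
            have h2 : l ≠ j := fun h => hjn (h ▸ hl)
            have h3 : l ≠ i := fun h => hin (mem_insert_of_mem (h ▸ hl))
            rw [Function.update_of_ne h2, Function.update_of_ne h3]
          rw [h1, Function.update_self, Function.update_of_ne hij, Function.update_self, one_smul]
          abel
        have hex : ∃ a : ℝ, (a = 1 ∨ a = -1) ∧ v i + a • v j = 0 := by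
          rcases hv with h | h
          · exact ⟨-1, Or.inr rfl, by rw [h]; simp⟩
          · exact ⟨1, Or.inl rfl, by rw [h]; simp⟩
        obtain ⟨a, ha, ha0⟩ := hex
        refine ⟨Function.update (Function.update η i 1) j a, fun l => ?_, ?_⟩
        · by_cases h2 : l = j
          · subst h2; rw [Function.update_self]; exact ha
          · rw [Function.update_of_ne h2]
            by_cases h3 : l = i
            · subst h3; rw [Function.update_self]; left; rfl
            · rw [Function.update_of_ne h3]; exact hη l
        · rw [hsum a, ha0, add_zero]; exact hb
      · push_neg at hp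
        refine hfin S hpar (fun i hi j hj hij h => ?_) (fun i hi hE => ?_)
        · have := hp i hi j hj hij
          rcases h with h | h
          · exact this.1 h
          · exact this.2 h
        · have h1 := hm i hi
          have h2 : S.filter (fun k => v k = v i ∨ v k = - v i) = {i} := by
            ext k
            rw [mem_filter, mem_singleton]
            constructor
            · rintro ⟨hk, h⟩
              by_contra hki
              have := hp k hk i hi hki
              rcases h with h | h
              · exact this.1 h
              · exact this.2 h
            · rintro rfl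
              exact ⟨hi, Or.inl rfl⟩
          rw [h2, card_singleton] at h1
          rw [Nat.even_iff] at hE
          omega
  refine key n univ (by simp) (by simp) (fun i _ => ?_)
  unfold mult
  rw [Nat.card_eq_fintype_card, Fintype.card_subtype]

end Pool.Agent.Q268.BV
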